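import Mathlib
import Pool.Agent.Lib.MP_ec260d_ntB.Q.QDefs

/-!
# Definitions for the robust form of theorem D: polynomials at complex points
-/

namespace Pool.Agent.Lib.MP_ec260d_ntR

open Pool.Agent.Lib.MP_ec260d_ntB

noncomputable section

/-- the value at the complex point `y` of the polynomial with the coefficients `c` -/
def evC {k D : ℕ} (c : (Fin k → Fin (D + 1)) → ℂ) (y : Fin k → ℂ) : ℂ :=
  ∑ α : Fin k → Fin (D + 1), c α * ∏ i : Fin k, y i ^ (α i : ℕ)

/-- the coefficients at the complex base point `s` -/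
def qeC {k D : ℕ} (q : (Fin k → Fin (D + 1)) → Polynomial ℂ) (s : ℂ) : (Fin k → Fin (D + 1)) → ℂ :=
  fun α => (q α).eval s

/-- the position of the `i`-th point for the complex gaps `v` -/
def posC {k : ℕ} (v : Fin k → ℂ) (i : Fin (k + 1)) : ℂ :=
  ∑ l : Fin k, if (l : ℕ) < (i : ℕ) then v l else 0

theorem evC_ofReal {k D : ℕ} (c : (Fin k → Fin (D + 1)) → ℂ) (y : Fin k → ℝ) :
    evC c (fun i => ((y i : ℝ) : ℂ)) = ev c y := rfl

theorem qeC_ofReal {k D : ℕ} (q : (Fin k → Fin (D + 1)) → Polynomial ℂ) (t : ℝ) :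
    qeC q (t : ℂ) = qe q t := rfl

end

end Pool.Agent.Lib.MP_ec260d_ntR
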