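import Mathlib
import Pool.Agent.Lib.MP_ec260d_ntR.DefsR

/-!
# Trivial bounds for polynomials on a polydisc (complex form of `poly_lip`)

`|∏ y_i^(α_i)| ≤ 2^(kD)` on the cube `|y_i| ≤ 2`, and `∏ y_i^(α_i) - ∏ y'_i^(α_i)` is a telescoping sum: each factor changes by at most `|y_i^a - y'_i^a| ≤ a 2^(a-1)... ≤ D 2^D |y_i - y'_i|`, the other factors are at most `2^D` each.
`∑_α ‖c α‖ ≤ (number of α)^(1/2) (nr c)^(1/2)` (Cauchy-Schwarz).
-/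

namespace Pool.Agent.Lib.MP_ec260d_ntR

open Pool.Agent.Lib.MP_ec260d_ntB

private theorem PolyLipC_prod_le {ι : Type*} (s : Finset ι) (a : ι → ℂ) {B : ℝ}
    (ha : ∀ i, ‖a i‖ ≤ B) : ‖∏ i ∈ s, a i‖ ≤ B ^ s.card := by
  rw [norm_prod]
  calc ∏ i ∈ s, ‖a i‖ ≤ ∏ _i ∈ s, B := Finset.prod_le_prod (fun i _ => norm_nonneg _) (fun i _ => ha i)
    _ = B ^ s.card := by rw [Finset.prod_const]

private theorem PolyLipC_prod_sub {ι : Type*} [DecidableEq ι] (s : Finset ι) (a b : ι → ℂ) {B : ℝ} (hB : 1 ≤ B)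
    (ha : ∀ i, ‖a i‖ ≤ B) (hb : ∀ i, ‖b i‖ ≤ B) :
    ‖∏ i ∈ s, a i - ∏ i ∈ s, b i‖ ≤ B ^ s.card * ∑ i ∈ s, ‖a i - b i‖ := by
  induction s using Finset.induction_on with
  | empty => simp
  | insert j s hj ih =>
    rw [Finset.prod_insert hj, Finset.prod_insert hj, Finset.card_insert_of_notMem hj, Finset.sum_insert hj]
    have h0 : (0 : ℝ) ≤ B := by linarith
    have hsp : (0 : ℝ) ≤ B ^ s.card := pow_nonneg h0 _
    have h1 : a j * ∏ i ∈ s, a i - b j * ∏ i ∈ s, b i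
        = (a j - b j) * ∏ i ∈ s, a i + b j * (∏ i ∈ s, a i - ∏ i ∈ s, b i) := by ring
    rw [h1]
    calc ‖(a j - b j) * ∏ i ∈ s, a i + b j * (∏ i ∈ s, a i - ∏ i ∈ s, b i)‖
        ≤ ‖a j - b j‖ * ‖∏ i ∈ s, a i‖ + ‖b j‖ * ‖∏ i ∈ s, a i - ∏ i ∈ s, b i‖ := by
          refine (norm_add_le _ _).trans ?_
          rw [norm_mul, norm_mul]
      _ ≤ ‖a j - b j‖ * B ^ s.card + B * (B ^ s.card * ∑ i ∈ s, ‖a i - b i‖) := by
          refine add_le_add ?_ ?_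
          · exact mul_le_mul_of_nonneg_left (PolyLipC_prod_le s a ha) (norm_nonneg _)
          · exact mul_le_mul (hb j) ih (norm_nonneg _) h0
      _ ≤ B ^ (s.card + 1) * (‖a j - b j‖ + ∑ i ∈ s, ‖a i - b i‖) := by
          have h2 : ‖a j - b j‖ * B ^ s.card ≤ ‖a j - b j‖ * B ^ (s.card + 1) := by
            refine mul_le_mul_of_nonneg_left ?_ (norm_nonneg _)
            exact pow_le_pow_right₀ hB (Nat.le_succ _)
          have h3 : B ^ (s.card + 1) = B * B ^ s.card := by ring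
          rw [h3] at h2 ⊢
          nlinarith [h2]

private theorem PolyLipC_pow_sub (D a : ℕ) (ha : a ≤ D) (x x' : ℂ) (hx : ‖x‖ ≤ 2) (hx' : ‖x'‖ ≤ 2) :
    ‖x ^ a - x' ^ a‖ ≤ 2 ^ D * (D + 1) * ‖x - x'‖ := by
  have h := PolyLipC_prod_sub (Finset.range a) (fun _ => x) (fun _ => x') (B := 2)
    (by norm_num) (fun _ => hx) (fun _ => hx')
  simp only [Finset.prod_const, Finset.sum_const, Finset.card_range, nsmul_eq_mul] at h
  refine h.trans ?_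
  have h2 : (2 : ℝ) ^ a ≤ 2 ^ D := pow_le_pow_right₀ (by norm_num) ha
  have h3 : (a : ℝ) ≤ (D : ℝ) + 1 := by
    have : (a : ℝ) ≤ (D : ℝ) := by exact_mod_cast ha
    linarith
  have h4 : (0 : ℝ) ≤ ‖x - x'‖ := norm_nonneg _
  calc (2 : ℝ) ^ a * ((a : ℝ) * ‖x - x'‖) = (2 ^ a * (a : ℝ)) * ‖x - x'‖ := by ring
    _ ≤ (2 ^ D * ((D : ℝ) + 1)) * ‖x - x'‖ := by
        refine mul_le_mul_of_nonneg_right ?_ h4
        exact mul_le_mul h2 h3 (by positivity) (by positivity)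

private theorem PolyLipC_fac (D a : ℕ) (ha : a ≤ D) (x : ℂ) (hx : ‖x‖ ≤ 2) :
    ‖x ^ a‖ ≤ 2 ^ D := by
  rw [norm_pow]
  calc ‖x‖ ^ a ≤ 2 ^ a := pow_le_pow_left₀ (norm_nonneg _) hx a
    _ ≤ 2 ^ D := pow_le_pow_right₀ (by norm_num) ha

private theorem PolyLipC_mon (k D : ℕ) (α : Fin k → Fin (D + 1)) (y y' : Fin k → ℂ)
    (hy : ∀ i, ‖y i‖ ≤ 2) (hy' : ∀ i, ‖y' i‖ ≤ 2) :
    ‖∏ i : Fin k, y i ^ (α i : ℕ)‖ ≤ (2 ^ D) ^ k * (2 ^ D * ((D : ℝ) + 1)) ∧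
    ‖∏ i : Fin k, y i ^ (α i : ℕ) - ∏ i : Fin k, y' i ^ (α i : ℕ)‖ ≤
      (2 ^ D) ^ k * (2 ^ D * ((D : ℝ) + 1)) * ∑ i, ‖y i - y' i‖ := by
  have hB : (1 : ℝ) ≤ 2 ^ D := one_le_pow₀ (by norm_num)
  have hD : (1 : ℝ) ≤ 2 ^ D * ((D : ℝ) + 1) := by
    have : (1 : ℝ) ≤ (D : ℝ) + 1 := by
      have : (0 : ℝ) ≤ (D : ℝ) := Nat.cast_nonneg _
      linarith
    exact one_le_mul_of_one_le_of_one_le hB this
  have hle : ∀ i, (α i : ℕ) ≤ D := fun i => Nat.lt_succ_iff.mp (α i).isLt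
  have hP : (0 : ℝ) ≤ (2 ^ D) ^ k := by positivity
  constructor
  · have h1 := PolyLipC_prod_le (Finset.univ : Finset (Fin k)) (fun i => y i ^ (α i : ℕ))
      (fun i => PolyLipC_fac D _ (hle i) (y i) (hy i))
    rw [Finset.card_univ, Fintype.card_fin] at h1
    refine h1.trans ?_
    exact le_mul_of_one_le_right hP hD
  · have h1 := PolyLipC_prod_sub (Finset.univ : Finset (Fin k)) (fun i => y i ^ (α i : ℕ))
      (fun i => y' i ^ (α i : ℕ)) hB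
      (fun i => PolyLipC_fac D _ (hle i) (y i) (hy i)) (fun i => PolyLipC_fac D _ (hle i) (y' i) (hy' i))
    rw [Finset.card_univ, Fintype.card_fin] at h1
    refine h1.trans ?_
    rw [mul_assoc ((2 ^ D : ℝ) ^ k)]
    refine mul_le_mul_of_nonneg_left ?_ hP
    rw [Finset.mul_sum]
    exact Finset.sum_le_sum (fun i _ => PolyLipC_pow_sub D _ (hle i) (y i) (y' i) (hy i) (hy' i))

private theorem PolyLipC_cs (k D : ℕ) (c : (Fin k → Fin (D + 1)) → ℂ) :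
    ∑ α, ‖c α‖ ≤ Real.sqrt (Fintype.card (Fin k → Fin (D + 1))) * Real.sqrt (nr c) := by
  rw [← Real.sqrt_mul (Nat.cast_nonneg _)]
  apply Real.le_sqrt_of_sq_le
  have h := sq_sum_le_card_mul_sum_sq (s := (Finset.univ : Finset (Fin k → Fin (D + 1)))) (f := fun α => ‖c α‖)
  rw [Finset.card_univ] at h
  exact h

theorem poly_lipC (k D : ℕ) : ∃ C : ℝ, 1 ≤ C ∧ ∀ (c : (Fin k → Fin (D + 1)) → ℂ) (y y' : Fin k → ℂ),
    (∀ i, ‖y i‖ ≤ 2) → (∀ i, ‖y' i‖ ≤ 2) →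
      ‖evC c y‖ ≤ C * Real.sqrt (nr c) ∧
      ‖evC c y - evC c y'‖ ≤ C * Real.sqrt (nr c) * ∑ i, ‖y i - y' i‖ := by
  set K : ℝ := (2 ^ D) ^ k * (2 ^ D * ((D : ℝ) + 1)) with hK
  have hK0 : (1 : ℝ) ≤ K := by
    have hB : (1 : ℝ) ≤ 2 ^ D := one_le_pow₀ (by norm_num)
    have h2 : (1 : ℝ) ≤ (D : ℝ) + 1 := by
      have : (0 : ℝ) ≤ (D : ℝ) := Nat.cast_nonneg _
      linarith
    exact one_le_mul_of_one_le_of_one_le (one_le_pow₀ hB) (one_le_mul_of_one_le_of_one_le hB h2)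
  have hN : (1 : ℝ) ≤ Real.sqrt (Fintype.card (Fin k → Fin (D + 1))) := by
    rw [Real.one_le_sqrt]
    exact_mod_cast Fintype.card_pos
  refine ⟨K * Real.sqrt (Fintype.card (Fin k → Fin (D + 1))), one_le_mul_of_one_le_of_one_le hK0 hN, ?_⟩
  intro c y y' hy hy'
  have hcs := PolyLipC_cs k D c
  have hK1 : 0 ≤ K := by linarith
  constructor
  · calc ‖evC c y‖ ≤ ∑ α, ‖c α * ∏ i : Fin k, y i ^ (α i : ℕ)‖ := norm_sum_le _ _
      _ ≤ ∑ α, ‖c α‖ * K := by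
          refine Finset.sum_le_sum (fun α _ => ?_)
          rw [norm_mul]
          exact mul_le_mul_of_nonneg_left (PolyLipC_mon k D α y y hy hy).1 (norm_nonneg _)
      _ = K * ∑ α, ‖c α‖ := by rw [← Finset.sum_mul, mul_comm]
      _ ≤ K * (Real.sqrt (Fintype.card (Fin k → Fin (D + 1))) * Real.sqrt (nr c)) :=
          mul_le_mul_of_nonneg_left hcs hK1
      _ = _ := by ring
  · have hS : 0 ≤ ∑ i, ‖y i - y' i‖ := Finset.sum_nonneg (fun i _ => norm_nonneg _)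
    have hsub : evC c y - evC c y' = ∑ α, c α * (∏ i : Fin k, y i ^ (α i : ℕ)
        - ∏ i : Fin k, y' i ^ (α i : ℕ)) := by
      unfold evC
      rw [← Finset.sum_sub_distrib]
      exact Finset.sum_congr rfl (fun α _ => by ring)
    rw [hsub]
    calc ‖∑ α, c α * (∏ i : Fin k, y i ^ (α i : ℕ) - ∏ i : Fin k, y' i ^ (α i : ℕ))‖
        ≤ ∑ α, ‖c α * (∏ i : Fin k, y i ^ (α i : ℕ)
          - ∏ i : Fin k, y' i ^ (α i : ℕ))‖ := norm_sum_le _ _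
      _ ≤ ∑ α, ‖c α‖ * (K * ∑ i, ‖y i - y' i‖) := by
          refine Finset.sum_le_sum (fun α _ => ?_)
          rw [norm_mul]
          exact mul_le_mul_of_nonneg_left (PolyLipC_mon k D α y y' hy hy').2 (norm_nonneg _)
      _ = (K * ∑ i, ‖y i - y' i‖) * ∑ α, ‖c α‖ := by rw [← Finset.sum_mul, mul_comm]
      _ ≤ (K * ∑ i, ‖y i - y' i‖) * (Real.sqrt (Fintype.card (Fin k → Fin (D + 1))) * Real.sqrt (nr c)) :=
          mul_le_mul_of_nonneg_left hcs (mul_nonneg hK1 hS)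
      _ = _ := by ring

end Pool.Agent.Lib.MP_ec260d_ntR
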