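import Mathlib
import Pool.Agent.Lib.MP_ec260d_ntB.Q.QGood
import Pool.Agent.Lib.MP_ec260d_ntD.Q.DispL
import Pool.Agent.Lib.MP_ec260d_ntD.Q.EventD
import Pool.Agent.Lib.MP_ec260d_ntR.HypC

/-!
# From a complex zero of the polynomial near the ordinates at a nice index to a grid point

As `nice_evD` (`Lib/MP_ec260d_ntD/Q/NiceEvD.lean`), but the polynomial vanishes at a complex point `x'` with `‖x' i - ordinate (n + m i)‖ ≤ K h`.
With `d' i = (x' i - al i - Λ (cl i) x' 0)/h` one has `‖d' i - d i‖ ≤ 2 K`, so the increments of `d'` differ from the integers `e l` by at most `1 + 4 K`.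
-/

namespace Pool.Agent.Lib.MP_ec260d_ntR

open Set
open Pool.Agent.Lib.MP_ec260d_ntB
open Pool.Agent.Lib.MP_ec260d_ntD
open Pool.Agent.Lib.MP_ec260d_nt (ordinate)

private theorem NiceEvC_num : 2 * Real.pi * Real.exp 1 ≤ 20 := by
  have h1 := Real.pi_lt_d2
  have h2 := Real.exp_one_lt_d9
  have h3 := Real.pi_pos
  have h4 := Real.exp_pos 1
  nlinarith

private theorem NiceEvC_pos {k : ℕ} (w : Fin (k + 1) → ℤ) (h0 : w 0 = 0) (i : Fin (k + 1)) :
    pos (fun l : Fin k => ((w l.succ - w l.castSucc : ℤ) : ℝ)) i = w i := by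
  induction i using Fin.induction with
  | zero =>
    rw [h0, Int.cast_zero]
    unfold pos
    refine Finset.sum_eq_zero fun l _ => ?_
    rw [if_neg]
    simp
  | succ i ih =>
    have h1 : pos (fun l : Fin k => ((w l.succ - w l.castSucc : ℤ) : ℝ)) i.succ -
        pos (fun l : Fin k => ((w l.succ - w l.castSucc : ℤ) : ℝ)) i.castSucc =
        ((w i.succ - w i.castSucc : ℤ) : ℝ) := by
      unfold pos
      rw [← Finset.sum_sub_distrib, Finset.sum_eq_single i]
      · rw [if_pos (by simp), if_neg (by simp), sub_zero]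
      · intro l _ hl
        have hne : (l : ℕ) ≠ (i : ℕ) := fun h => hl (Fin.ext h)
        by_cases h : (l : ℕ) < (i : ℕ)
        · rw [if_pos (by rw [Fin.val_succ]; omega), if_pos (by rw [Fin.val_castSucc]; exact h),
            sub_self]
        · rw [if_neg (by rw [Fin.val_succ]; omega), if_neg (by rw [Fin.val_castSucc]; exact h),
            sub_self]
      · intro h
        exact absurd (Finset.mem_univ i) h
    rw [ih] at h1
    push_cast at h1 ⊢
    linarith

private theorem NiceEvC_sum {k : ℕ} (ε : Fin (k + 1) → ℝ) (E : ℝ) (h0 : ε 0 = 0)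
    (h : ∀ l : Fin k, |ε l.succ - ε l.castSucc| ≤ E) (i : Fin (k + 1)) : |ε i| ≤ (i : ℕ) * E := by
  induction i using Fin.induction with
  | zero => rw [h0, abs_zero]; simp
  | succ i ih =>
    have h1 := h i
    have h2 : |ε i.succ| ≤ |ε i.succ - ε i.castSucc| + |ε i.castSucc| := by
      have := abs_add_le (ε i.succ - ε i.castSucc) (ε i.castSucc)
      rwa [sub_add_cancel] at this
    rw [Fin.val_castSucc] at ih
    rw [Fin.val_succ]
    push_cast
    linarith

private theorem NiceEvC_LL {h T C₂ c : ℝ}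
    (H : ∀ s t : ℝ, T ≤ s → s ≤ t → t ≤ C₂ * T → |h * (LL t - LL s) - (t - s)| ≤ c * (t - s))
    {s t : ℝ} (hs : T ≤ s) (hs' : s ≤ C₂ * T) (ht : T ≤ t) (ht' : t ≤ C₂ * T) :
    |h * (LL t - LL s) - (t - s)| ≤ c * |t - s| := by
  rcases le_total s t with hst | hst
  · rw [abs_of_nonneg (sub_nonneg.2 hst)]
    exact H s t hs hst ht'
  · have h1 := H t s ht hst hs'
    have h2 : |t - s| = s - t := by
      rw [abs_of_nonpos (by linarith)]
      ring
    rw [h2]
    have h3 : h * (LL t - LL s) - (t - s) = -(h * (LL s - LL t) - (s - t)) := by ring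
    rw [h3, abs_neg]
    exact h1

private theorem NiceEvC_up {h c x y : ℝ} (hh : 0 < h) (hc : c ≤ 1 / 2)
    (H : |h * x - y| ≤ c * |y|) : |x| ≤ 3 / 2 * |y| / h := by
  rw [le_div_iff₀ hh]
  have h1 : |h * x| ≤ |h * x - y| + |y| := by
    have := abs_add_le (h * x - y) y
    rwa [sub_add_cancel] at this
  rw [abs_mul, abs_of_pos hh] at h1
  have h2 := abs_nonneg y
  nlinarith

private theorem NiceEvC_dn {h c x y : ℝ} (hh : 0 < h) (hc : c ≤ 1 / 2)
    (H : |h * x - y| ≤ c * |y|) : |y| ≤ 2 * h * |x| := by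
  have h1 : |y| ≤ |h * x - y| + |h * x| := by
    have := abs_add_le (y - h * x) (h * x)
    rw [sub_add_cancel, abs_sub_comm] at this
    exact this
  rw [abs_mul, abs_of_pos hh] at h1
  have h2 := abs_nonneg y
  nlinarith

private theorem NiceEvC_tol {A' T x : ℝ} (hA : 0 ≤ A') (hT : 0 ≤ Real.log T) (hx : 0 ≤ x) :
    A' / 2 ≤ tolD A' T x ∧ tolD A' T x ≤ A' * Real.sqrt (Real.log (2 + Real.log T)) := by
  have hm : 0 ≤ min x (Real.log T) := le_min hx hT
  unfold tolD
  constructor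
  · have h1 : (1 / 2 : ℝ) ≤ Real.sqrt (Real.log (2 + min x (Real.log T))) := by
      refine Real.le_sqrt_of_sq_le ?_
      have h2 : Real.log 2 ≤ Real.log (2 + min x (Real.log T)) :=
        Real.log_le_log (by norm_num) (by linarith)
      have h3 := Real.log_two_gt_d9
      linarith
    have h4 := mul_le_mul_of_nonneg_left h1 hA
    linarith
  · refine mul_le_mul_of_nonneg_left (Real.sqrt_le_sqrt ?_) hA
    refine Real.log_le_log (by linarith) ?_
    have := min_le_right x (Real.log T)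
    linarith

private theorem NiceEvC_small {C k A' B L : ℝ} (hC : 0 ≤ C) (hk : 0 ≤ k) (hA : 0 ≤ A') (hB : 0 ≤ B)
    (hL : 1 ≤ L) (h : (40 * C * k * (A' + B)) ^ 2 ≤ L) :
    2 * (C / L) * (k * (A' * Real.sqrt (Real.log (2 + L)) + 2 * B)) ≤ 1 / 10 := by
  have hL0 : 0 < L := by linarith
  have hs : 0 < Real.sqrt L := Real.sqrt_pos.2 hL0
  have hss : Real.sqrt L * Real.sqrt L = L := Real.mul_self_sqrt hL0.le
  have hs1 : 1 ≤ Real.sqrt L := by
    rw [Real.one_le_sqrt]
    exact hL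
  have h1 : Real.log (2 + L) ≤ 4 * L := by
    have := Real.log_le_sub_one_of_pos (show (0 : ℝ) < 2 + L by linarith)
    linarith
  have h2 : Real.sqrt (Real.log (2 + L)) ≤ 2 * Real.sqrt L := by
    have h3 : Real.sqrt (4 * L) = 2 * Real.sqrt L := by
      rw [Real.sqrt_mul (by norm_num)]
      congr 1
      rw [show (4 : ℝ) = 2 ^ 2 by norm_num, Real.sqrt_sq (by norm_num)]
    rw [← h3]
    exact Real.sqrt_le_sqrt h1
  have h4 : 40 * C * k * (A' + B) ≤ Real.sqrt L := Real.le_sqrt_of_sq_le h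
  have h5 : A' * Real.sqrt (Real.log (2 + L)) + 2 * B ≤ 2 * (A' + B) * Real.sqrt L := by
    have h6 := mul_le_mul_of_nonneg_left h2 hA
    have h7 : B * 1 ≤ B * Real.sqrt L := mul_le_mul_of_nonneg_left hs1 hB
    linarith
  have h6 : 2 * (C / L) * (k * (A' * Real.sqrt (Real.log (2 + L)) + 2 * B)) ≤
      2 * (C / L) * (k * (2 * (A' + B) * Real.sqrt L)) := by
    refine mul_le_mul_of_nonneg_left (mul_le_mul_of_nonneg_left h5 hk) (by positivity)
  refine h6.trans ?_
  have h7 : 2 * (C / L) * (k * (2 * (A' + B) * Real.sqrt L)) =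
      (40 * C * k * (A' + B)) * Real.sqrt L / (10 * L) := by
    field_simp
    ring
  rw [h7, div_le_div_iff₀ (by positivity) (by norm_num)]
  have h8 := mul_le_mul_of_nonneg_right h4 hs.le
  rw [hss] at h8
  linarith

theorem nice_evC (k D : ℕ) (η K : ℝ) (hη : 0 < η) (hK : 0 ≤ K) : ∃ η₂ R₀ : ℝ, 0 < η₂ ∧ 1 ≤ R₀ ∧
    ∀ δ δ' W A A' B C₂ C₃ : ℝ, 1 ≤ A → 1 ≤ B → 200 * (A + B + 1) ≤ A' → 1 ≤ C₃ → C₃ ≤ C₂ →
      ∃ T₀ : ℝ, 20 ≤ T₀ ∧ ∀ T : ℝ, T₀ ≤ T →
      ∀ (κ τ ηF a H : ℝ) (m : Fin (k + 1) → ℕ) (cl : Fin (k + 1) → Fin (k + 1)) (Λ al : Fin (k + 1) → ℝ),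
        T ≤ a → IntD k T κ τ ηF a H (fun i => (m i : ℝ)) cl Λ al → m 0 = 0 →
        (∀ l : Fin k, m l.castSucc ≤ m l.succ) →
        (∀ l : Fin k, 4 * tolD A' T ((m l.succ : ℝ) - m l.castSucc) ≤ (m l.succ : ℝ) - m l.castSucc ∧
          R₀ ≤ 3 * tolD A' T ((m l.succ : ℝ) - m l.castSucc)) →
        ∀ G : Set ℝ, GoodD k δ δ' W T A B C₂ G →
          (∀ t ∈ G, t ≤ C₃ * T → ∀ l : Fin k, DispD δ W T A ((m l.succ : ℝ) - m l.castSucc)
            (tolD A' T ((m l.succ : ℝ) - m l.castSucc)) t) →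
          ∀ (P : MvPolynomial (Fin (k + 1)) ℂ) (q : (Fin k → Fin (D + 1)) → Polynomial ℂ),
            (∀ (t : ℂ) (y : Fin k → ℂ), MvPolynomial.eval (fun i : Fin (k + 1) =>
              (al i : ℂ) + (Λ (cl i) : ℂ) * t + (hT T : ℂ) *
                posC (fun l => ((3 * tolD A' T ((m l.succ : ℝ) - m l.castSucc) : ℝ) : ℂ) * y l) i) P =
                  evC (qeC q t) y) →
            ∀ (n : ℕ) (t : ℝ), 1 ≤ n → Nice k T B m G n → a ≤ t → t ≤ ordinate n → ordinate n ≤ t + hT T →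
              t ≤ a + H → (∀ i, ordinate (n + m i) + 1 ≤ C₃ * T) → (∀ i, Ph (m i) (ordinate n) ≤ C₃ * T) →
              ∀ x' : Fin (k + 1) → ℂ, (∀ i, ‖x' i - ((ordinate (n + m i) : ℝ) : ℂ)‖ ≤ K * hT T) →
              MvPolynomial.eval x' P = 0 →
              nr (qeC q (x' 0) - qe q t) ≤ η₂ ^ 2 * nr (qe q t) →
              ∃ e : Fin k → ℤ, (∀ l : Fin k, |(e l : ℝ)| ≤ 3 * tolD A' T ((m l.succ : ℝ) - m l.castSucc)) ∧
                ‖ev (qe q t) (fun l : Fin k => (e l : ℝ) / (3 * tolD A' T ((m l.succ : ℝ) - m l.castSucc)))‖ ≤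
                  η * Real.sqrt (nr (qe q t)) ∧
                t ∈ EvD k δ' W T (5 * A + 6 * B + 4) cl Λ al e := by
  obtain ⟨η₂, R₀, hη₂, hR₀, hyp⟩ := hyp_C k D η (1 + 4 * K) hη (by linarith)
  refine ⟨η₂, R₀, hη₂, hR₀, ?_⟩
  intro δ δ' W A A' B C₂ C₃ hA hB hA' hC₃ hC₃₂
  obtain ⟨C, T₁, hC, hT₁, hLLh⟩ := LL_h C₂ (hC₃.trans hC₃₂)
  have hA'0 : 0 ≤ A' := by linarith
  have hk0 : (0 : ℝ) ≤ k := Nat.cast_nonneg k
  have hπ := Real.pi_pos
  refine ⟨max T₁ (Real.exp (max (max 1 (4 * Real.pi * B)) (max (2 * C) ((40 * C * k * (A' + B)) ^ 2)))),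
    hT₁.trans (le_max_left _ _), ?_⟩
  intro T hTT κ τ' ηF a H m cl Λ al hTa hI hm0 hmm hρ G hG hD P q hq n t hn hnice hat htx hxt htH hxC hPC
    x' hx' hP hnr
  have hT1 : T₁ ≤ T := (le_max_left _ _).trans hTT
  have h20 : 20 ≤ T := hT₁.trans hT1
  have hT0 : 0 < T := by linarith
  have hlogm : max (max 1 (4 * Real.pi * B)) (max (2 * C) ((40 * C * k * (A' + B)) ^ 2)) ≤
      Real.log T := (Real.le_log_iff_exp_le hT0).2 ((le_max_right _ _).trans hTT)
  have hl1 : 1 ≤ Real.log T := ((le_max_left _ _).trans (le_max_left _ _)).trans hlogm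
  have hl2 : 4 * Real.pi * B ≤ Real.log T :=
    ((le_max_right _ _).trans (le_max_left _ _)).trans hlogm
  have hl3 : 2 * C ≤ Real.log T := ((le_max_left _ _).trans (le_max_right _ _)).trans hlogm
  have hl4 : (40 * C * k * (A' + B)) ^ 2 ≤ Real.log T :=
    ((le_max_right _ _).trans (le_max_right _ _)).trans hlogm
  have hl0 : 0 < Real.log T := by linarith
  have hLL := hLLh T hT1
  obtain ⟨h, hh⟩ : ∃ h : ℝ, h = hT T := ⟨_, rfl⟩
  obtain ⟨c, hc⟩ : ∃ c : ℝ, c = C / Real.log T := ⟨_, rfl⟩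
  rw [← hh, ← hc] at hLL
  have hhpos : 0 < h := by
    rw [hh]
    unfold hT
    positivity
  have hhB : B * h ≤ 1 / 2 := by
    rw [hh]
    unfold hT
    rw [← mul_div_assoc, div_le_iff₀ hl0]
    linarith
  have hh1 : h ≤ 1 := by
    have h1 := mul_le_mul_of_nonneg_right hB hhpos.le
    linarith
  have hc12 : c ≤ 1 / 2 := by
    rw [hc, div_le_iff₀ hl0]
    linarith
  have hc0 : 0 ≤ c := by
    rw [hc]
    positivity
  obtain ⟨E, hE⟩ : ∃ E : ℝ, E = A' * Real.sqrt (Real.log (2 + Real.log T)) + 2 * B := ⟨_, rfl⟩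
  have hE0 : 0 ≤ E := by
    rw [hE]
    positivity
  have hsmall : 2 * c * (k * E) ≤ 1 / 10 := by
    rw [hc, hE]
    exact NiceEvC_small hC hk0 hA'0 (by linarith) hl1 hl4
  have hnum : 2 * Real.pi * Real.exp 1 ≤ T := NiceEvC_num.trans h20
  -- the ordinates
  obtain ⟨x, hx⟩ : ∃ x : Fin (k + 1) → ℝ, x = fun i => ordinate (n + m i) := ⟨_, rfl⟩
  have hxi : ∀ i, x i = ordinate (n + m i) := fun i => by rw [hx]
  have hx0 : x 0 = ordinate n := by rw [hxi, hm0, add_zero]
  rw [← hx0] at htx hxt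
  have hxx : ∀ i, x 0 ≤ x i := fun i => by
    rw [hx0, hxi]
    exact ord_mono hn (by omega)
  have hTx : ∀ i, T ≤ x i := fun i => by
    have := hxx i
    linarith
  have hxC' : ∀ i, x i + 1 ≤ C₃ * T := fun i => by
    rw [hxi]
    exact hxC i
  have hC32 : C₃ * T ≤ C₂ * T := mul_le_mul_of_nonneg_right hC₃₂ hT0.le
  choose τ hτG hτx hτN using hnice
  rw [← hh] at hτx
  have hτx' : ∀ i, |τ i - x i| ≤ B * h := fun i => by
    rw [hxi]
    exact hτx i
  have hτI : ∀ i, T ≤ τ i ∧ τ i ≤ C₂ * T := fun i => hG.sub (hτG i)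
  have hτ3 : ∀ i, τ i ≤ C₃ * T := fun i => by
    have h1 := (abs_le.1 (hτx' i)).2
    have h2 := hxC' i
    linarith
  have hxI : ∀ i, T ≤ x i ∧ x i ≤ C₂ * T := fun i => ⟨hTx i, by
    have := hxC' i
    linarith⟩
  have hL : ∀ i, |LL (τ i) - LL (x i)| ≤ 2 * B := by
    intro i
    have h1 := NiceEvC_up hhpos hc12
      (NiceEvC_LL hLL (hxI i).1 (hxI i).2 (hτI i).1 (hτI i).2)
    refine h1.trans ?_
    rw [div_le_iff₀ hhpos]
    have h2 := hτx' i
    have h3 : 0 ≤ B * h := mul_nonneg (by linarith) hhpos.le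
    linarith
  -- the gaps
  obtain ⟨g, hg⟩ : ∃ g : Fin k → ℝ, g = fun l => (m l.succ : ℝ) - m l.castSucc := ⟨_, rfl⟩
  have hgl : ∀ l, (m l.succ : ℝ) - m l.castSucc = g l := fun l => by rw [hg]
  have hg0 : ∀ l, 0 ≤ g l := fun l => by
    rw [← hgl l]
    have : (m l.castSucc : ℝ) ≤ m l.succ := by exact_mod_cast hmm l
    linarith
  obtain ⟨ρ, hρd⟩ : ∃ ρ : Fin k → ℝ, ρ = fun l => tolD A' T ((m l.succ : ℝ) - m l.castSucc) := ⟨_, rfl⟩
  have hρl : ∀ l : Fin k, tolD A' T ((m l.succ : ℝ) - m l.castSucc) = ρ l := fun l => by rw [hρd]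
  have hρ4 : ∀ l, 4 * ρ l ≤ g l := fun l => by
    rw [← hρl l, ← hgl l]
    exact (hρ l).1
  have hρR : ∀ l, R₀ ≤ 3 * ρ l := fun l => by
    rw [← hρl l]
    exact (hρ l).2
  have hρb : ∀ l, 100 * (A + B + 1) ≤ ρ l ∧ ρ l + 2 * B ≤ E := fun l => by
    have h1 := NiceEvC_tol hA'0 hl0.le (hg0 l)
    rw [← hgl l, hρl l] at h1
    rw [hE]
    constructor
    · linarith [h1.1]
    · linarith [h1.2]
  -- displacement
  have hdisp : ∀ l : Fin k, |LL (x l.succ) - LL (x l.castSucc) - g l| ≤ ρ l + 2 * B := by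
    intro l
    have e1 : ((m l.succ - m l.castSucc : ℕ) : ℝ) = g l := by
      rw [Nat.cast_sub (hmm l)]
      exact hgl l
    have e2 : n + m l.castSucc + (m l.succ - m l.castSucc) = n + m l.succ := by
      have := hmm l
      omega
    have h1 := disp_L δ W T A B (ρ l) (τ l.castSucc) (n + m l.castSucc) (m l.succ - m l.castSucc)
      hA hB (by omega) (by linarith [(hρb l).1]) (by
        rw [e1]
        linarith [hρ4 l, (hρb l).1]) (hnum.trans (hτI _).1)
      (by
        rw [← hxi]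
        exact hnum.trans (hTx _))
      (by
        have h2 := hD (τ l.castSucc) (hτG _) (hτ3 _) l
        rw [hρl l, hgl l] at h2
        rw [e1]
        exact h2)
      (by
        rw [← hxi]
        exact hL _)
      (hτN _)
    rw [e2, e1, ← hxi, ← hxi] at h1
    exact h1
  obtain ⟨ε, hε⟩ : ∃ ε : Fin (k + 1) → ℝ, ε = fun i => LL (x i) - LL (x 0) - m i := ⟨_, rfl⟩
  have hεi : ∀ i, ε i = LL (x i) - LL (x 0) - m i := fun i => by rw [hε]
  have hε0 : ε 0 = 0 := by
    rw [hεi, hm0]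
    simp
  have hεd : ∀ l : Fin k, ε l.succ - ε l.castSucc = LL (x l.succ) - LL (x l.castSucc) - g l := fun l => by
    rw [hεi, hεi, ← hgl l]
    ring
  have hεs : ∀ i, |ε i| ≤ k * E := by
    intro i
    have h1 := NiceEvC_sum ε E hε0 (fun l => by
      rw [hεd]
      exact (hdisp l).trans (hρb l).2) i
    refine h1.trans (mul_le_mul_of_nonneg_right ?_ hE0)
    exact_mod_cast (Nat.lt_succ_iff.1 i.2)
  -- comparison with `Ph`
  have hPh : ∀ i, |(x i - Ph (m i) (x 0)) - h * ε i| ≤ h / 10 := by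
    intro i
    have hm' : (0 : ℝ) ≤ m i := Nat.cast_nonneg _
    have hx20 : 2 * Real.pi * Real.exp 1 ≤ x 0 := hnum.trans (hTx 0)
    have h1 := LL_ph hm' hx20
    have h2 := ph_ge hm' hx20
    have h3 : Ph (m i) (x 0) ≤ C₂ * T := by
      rw [hx0]
      exact (hPC i).trans hC32
    have h4 := NiceEvC_LL hLL ((hTx 0).trans h2) h3 (hxI i).1 (hxI i).2
    have h5 := NiceEvC_dn hhpos hc12 h4
    have h6 : LL (x i) - LL (Ph (m i) (x 0)) = ε i := by
      rw [h1, hεi]
      ring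
    rw [h6] at h4 h5
    rw [abs_sub_comm] at h4
    refine h4.trans ?_
    have h7 : c * |x i - Ph (m i) (x 0)| ≤ c * (2 * h * (k * E)) := by
      refine mul_le_mul_of_nonneg_left (h5.trans ?_) hc0
      exact mul_le_mul_of_nonneg_left (hεs i) (by positivity)
    refine h7.trans ?_
    have h8 := mul_le_mul_of_nonneg_left hsmall hhpos.le
    linarith
  have hlin := hI.lin (x 0) (by linarith) (by linarith)
  rw [← hh] at hlin
  obtain ⟨d, hd⟩ : ∃ d : Fin (k + 1) → ℝ, d = fun i => (x i - (al i + Λ (cl i) * x 0)) / h := ⟨_, rfl⟩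
  have hdi : ∀ i, h * d i = x i - (al i + Λ (cl i) * x 0) := fun i => by
    rw [hd]
    exact mul_div_cancel₀ _ hhpos.ne'
  have hd0 : d 0 = 0 := by
    have h1 := hdi 0
    rw [hI.al0, hI.lm0] at h1
    have h2 : h * d 0 = 0 := by
      rw [h1]
      ring
    rcases mul_eq_zero.1 h2 with h3 | h3
    · exact absurd h3 hhpos.ne'
    · exact h3
  have hdε : ∀ i, |d i - ε i| ≤ 1 / 5 := by
    intro i
    have h1 : h * (d i - ε i) = ((x i - Ph (m i) (x 0)) - h * ε i) +
        (Ph (m i) (x 0) - (al i + Λ (cl i) * x 0)) := by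
      rw [mul_sub, hdi]
      ring
    have h2 : |h * (d i - ε i)| ≤ h / 10 + h / 10 := by
      rw [h1]
      exact (abs_add_le _ _).trans (add_le_add (hPh i) (hlin i))
    rw [abs_mul, abs_of_pos hhpos] at h2
    exact le_of_mul_le_mul_left (h2.trans (by linarith)) hhpos
  -- the grid
  obtain ⟨w, hw⟩ : ∃ w : Fin (k + 1) → ℤ, w = fun i => ⌊d i⌋ := ⟨_, rfl⟩
  have hw0 : w 0 = 0 := by
    rw [hw]
    show ⌊d 0⌋ = 0
    rw [hd0, Int.floor_zero]
  have hwd : ∀ i, 0 ≤ d i - w i ∧ d i - w i ≤ 1 := fun i => by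
    have h1 : ((w i : ℤ) : ℝ) ≤ d i := by
      rw [hw]
      exact Int.floor_le _
    have h2 : d i < (w i : ℝ) + 1 := by
      rw [hw]
      exact Int.lt_floor_add_one _
    constructor <;> linarith
  obtain ⟨e, he⟩ : ∃ e : Fin k → ℤ, e = fun l => w l.succ - w l.castSucc := ⟨_, rfl⟩
  have hel : ∀ l, (e l : ℝ) = (w l.succ : ℝ) - w l.castSucc := fun l => by
    rw [he]
    push_cast
    rfl
  have hpos : ∀ i, pos (fun l => (e l : ℝ)) i = w i := fun i => by
    rw [he]
    exact NiceEvC_pos w hw0 i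
  have hed : ∀ l : Fin k, |(d l.succ - d l.castSucc) - e l| ≤ 1 := fun l => by
    have h1 := hwd l.succ
    have h2 := hwd l.castSucc
    rw [hel, abs_le]
    constructor <;> linarith [h1.1, h1.2, h2.1, h2.2]
  have hdd : ∀ l : Fin k, |(d l.succ - d l.castSucc) - (ε l.succ - ε l.castSucc)| ≤ 2 / 5 := fun l => by
    have h1 := abs_le.1 (hdε l.succ)
    have h2 := abs_le.1 (hdε l.castSucc)
    rw [abs_le]
    constructor <;> linarith [h1.1, h1.2, h2.1, h2.2]
  have hεl : ∀ l : Fin k, |ε l.succ - ε l.castSucc| ≤ ρ l + 2 * B := fun l => by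
    rw [hεd]
    exact hdisp l
  have hed3 : ∀ l : Fin k, |(e l : ℝ)| ≤ 3 * ρ l := fun l => by
    have h1 := abs_le.1 (hed l)
    have h2 := abs_le.1 (hdd l)
    have h3 := abs_le.1 (hεl l)
    have h4 := (hρb l).1
    rw [abs_le]
    constructor <;> linarith [h1.1, h1.2, h2.1, h2.2, h3.1, h3.2]
  refine ⟨e, fun l => ?_, ?_, ?_⟩
  · rw [hρl l]
    exact hed3 l
  · -- the complex displacements
    have hhc : (h : ℂ) ≠ 0 := Complex.ofReal_ne_zero.2 hhpos.ne'
    obtain ⟨d', hd'⟩ : ∃ d' : Fin (k + 1) → ℂ, ∀ i,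
        d' i = (x' i - ((al i : ℂ) + (Λ (cl i) : ℂ) * x' 0)) / (h : ℂ) := ⟨_, fun _ => rfl⟩
    have hxx' : ∀ i, ‖x' i - (x i : ℂ)‖ ≤ K * h := fun i => by
      have h1 := hx' i
      rw [hxi i, hh]
      exact h1
    have hdd' : ∀ i, ‖d' i - (d i : ℂ)‖ ≤ 2 * K := by
      intro i
      have e1 : (h : ℂ) * (d' i - (d i : ℂ)) = (x' i - (x i : ℂ)) - (Λ (cl i) : ℂ) * (x' 0 - (x 0 : ℂ)) := by
        have e2 : (h : ℂ) * (d i : ℂ) = (x i : ℂ) - ((al i : ℂ) + (Λ (cl i) : ℂ) * (x 0 : ℂ)) := by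
          rw [← Complex.ofReal_mul, hdi i]
          push_cast
          ring
        rw [mul_sub, e2, hd' i, mul_div_cancel₀ _ hhc]
        ring
      have e3 : ‖(h : ℂ) * (d' i - (d i : ℂ))‖ ≤ K * h + 1 * (K * h) := by
        rw [e1]
        refine (norm_sub_le _ _).trans (add_le_add (hxx' i) ?_)
        rw [norm_mul]
        refine mul_le_mul ?_ (hxx' 0) (norm_nonneg _) zero_le_one
        have h4 := hI.lm i
        rw [Complex.norm_real, Real.norm_eq_abs, abs_of_nonneg (by linarith [h4.1])]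
        exact h4.2
      rw [norm_mul, Complex.norm_real, Real.norm_eq_abs, abs_of_pos hhpos] at e3
      refine le_of_mul_le_mul_left (e3.trans (le_of_eq ?_)) hhpos
      ring
    have h1 := hyp P h (fun l : Fin k => 3 * tolD A' T ((m l.succ : ℝ) - m l.castSucc)) al
      (fun i => Λ (cl i)) q hhpos (fun l => (hρ l).2) hI.al0 hI.lm0 (by
        rw [hh]
        exact hq) x' d' t e (fun i => by
        rw [hd' i, mul_div_cancel₀ _ hhc]
        ring) hP hnr (fun l => by
        show |(e l : ℝ)| ≤ 3 * tolD A' T ((m l.succ : ℝ) - m l.castSucc)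
        rw [hρl l]
        exact hed3 l) (fun l => by
        have h2 := hed l
        have h3 : ‖(((d l.succ - d l.castSucc) - e l : ℝ) : ℂ)‖ ≤ 1 := by
          rw [Complex.norm_real, Real.norm_eq_abs]
          exact h2
        have h4 : d' l.succ - d' l.castSucc - (e l : ℂ) =
            (((d l.succ - d l.castSucc) - e l : ℝ) : ℂ) + (d' l.succ - (d l.succ : ℂ)) -
              (d' l.castSucc - (d l.castSucc : ℂ)) := by
          push_cast
          ring
        rw [h4]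
        refine (norm_sub_le _ _).trans ?_
        have h5 := norm_add_le (((d l.succ - d l.castSucc) - e l : ℝ) : ℂ) (d' l.succ - (d l.succ : ℂ))
        have h6 := hdd' l.succ
        have h7 := hdd' l.castSucc
        linarith)
    exact h1
  · have h1 := event_D k δ δ' W T A B C₂ G hG (by rw [← hh]; exact hhpos) hA hB (n : ℝ)
      (fun i => (m i : ℝ)) x τ (fun i => posD T cl Λ al e i t) e hτG (by rw [← hh]; exact hτx')
      (fun i => by
        have h2 := hτN i
        push_cast at h2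
        exact h2) hL (fun i => by
        rw [← hh]
        have h2 := hdi i
        have h3 := hwd i
        have h4 := hI.lm i
        have h5 : x i - posD T cl Λ al e i t = Λ (cl i) * (x 0 - t) + h * (d i - w i) := by
          unfold posD
          rw [hpos, ← hh, mul_sub h, h2]
          ring
        have h6 : 0 ≤ Λ (cl i) * (x 0 - t) ∧ Λ (cl i) * (x 0 - t) ≤ h := by
          constructor
          · exact mul_nonneg (by linarith [h4.1]) (by linarith)
          · rw [← hh] at hxt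
            have h9 := mul_le_mul_of_nonneg_right h4.2 (sub_nonneg.2 htx)
            linarith
        have h7 : 0 ≤ h * (d i - w i) ∧ h * (d i - w i) ≤ h := by
          constructor
          · exact mul_nonneg hhpos.le h3.1
          · have h9 := mul_le_mul_of_nonneg_left h3.2 hhpos.le
            linarith
        rw [h5, abs_le]
        constructor <;> linarith [h6.1, h6.2, h7.1, h7.2]) (fun l => by
        by_contra hcon
        rw [not_le] at hcon
        have h2 := LL_lt (hnum.trans (hτI _).1) hcon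
        have h3 := abs_le.1 (hL l.succ)
        have h4 := abs_le.1 (hL l.castSucc)
        have h5 := abs_le.1 (hdisp l)
        have h6 := hρ4 l
        have h7 := (hρb l).1
        linarith [h3.1, h3.2, h4.1, h4.2, h5.1, h5.2]) (fun l => by
        show |(LL (x l.succ) - LL (x l.castSucc) - ((m l.succ : ℝ) - m l.castSucc)) - e l| ≤ 4
        rw [hgl l, ← hεd l]
        have h2 := abs_le.1 (hed l)
        have h3 := abs_le.1 (hdd l)
        rw [abs_le]
        constructor <;> linarith [h2.1, h2.2, h3.1, h3.2])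
    exact h1

end Pool.Agent.Lib.MP_ec260d_ntR
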