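import Mathlib
import Pool.Agent.Lib.MP_ec260d_ntR.DefsR

/-!
# The coefficients vary slowly for most base points, also in complex directions, on an interval `[a, a + H]`

Let `V` be the finite-dimensional space of the vectors of polynomials of degree `≤ D` indexed by `ι = Fin k → Fin (D + 1)`.  Rescale: `t = T (1 + x)`, `x ∈ [0, 1]`, `f_α(x) = (q α)(T (1 + x))`, again polynomials of degree `≤ D`.
Normalise `max_α max_n |coefficient n of f_α| = 1` (possible as some `q α ≠ 0`; both sides of the inequality are homogeneous).  Then `‖f_α'(x)‖ ≤ C = D (D+1) 4^D...` for `x ∈ [-1, 2]`, so for `|s - t| ≤ 1`: `‖q α (s) - q α (t)‖ ≤ C/T` and `nr (q(s) - q(t)) ≤ (card ι) C^2/T^2`.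
Sublevel set: some `f_α` has a coefficient of modulus `1`.  By compactness (the set of coefficient vectors of one polynomial of degree `≤ D` with max norm `1` is compact, a nonzero polynomial has finitely many zeros, argument as for `poly_small`; or apply `poly_small`/`poly_null` with `k = 1`; or Lagrange interpolation: if `|f_α| ≤ θ` on a set of measure `> ε` in `[0,1]`
then there are `D + 1` points of this set with distances `≥ ε/(D+1)` and interpolation bounds all coefficients by `C(D, ε) θ`): there is `θ = θ(D, ε) > 0` such that `{x ∈ [0,1] : ‖f_α(x)‖ ≤ θ}` has measure `≤ ε`.  Outside of it `nr (q(t)) ≥ θ^2`, and `(card ι) C^2/T^2 ≤ η^2 θ^2` for `T ≥ T₀`.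
Scaling back: the exceptional set of `t` has measure `≤ ε T`.
-/

namespace Pool.Agent.Lib.MP_ec260d_ntR

open Pool.Agent.Lib.MP_ec260d_ntB

open MeasureTheory Set

/-- product of the values of the linear factors -/
private theorem SlowC_prod (R : ℝ) (hR : 0 < R) (s t : ℂ) (hst : ‖s - t‖ ≤ 1) (m : Multiset ℂ)
    (hm : ∀ z ∈ m, R ≤ ‖t - z‖) :
    ‖(m.map fun z => s - z).prod - (m.map fun z => t - z).prod‖ ≤
      ((1 + 1 / R) ^ (Multiset.card m) - 1) * ‖(m.map fun z => t - z).prod‖ := by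
  induction m using Multiset.induction_on with
  | empty => simp
  | cons z m ih =>
    have hz : R ≤ ‖t - z‖ := hm z (Multiset.mem_cons_self z m)
    have ih' := ih fun y hy => hm y (Multiset.mem_cons_of_mem hy)
    rw [Multiset.map_cons, Multiset.map_cons, Multiset.prod_cons, Multiset.prod_cons,
      Multiset.card_cons]
    set A : ℂ := (m.map fun z => s - z).prod with hA
    set B : ℂ := (m.map fun z => t - z).prod with hB
    have hκ : (1 : ℝ) ≤ (1 + 1 / R) ^ (Multiset.card m) :=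
      one_le_pow₀ (by have := one_div_pos.2 hR; linarith)
    have h1 : ‖s - z‖ ≤ (1 + 1 / R) * ‖t - z‖ := by
      have h2 : s - z = (s - t) + (t - z) := by ring
      have h3 : ‖s - z‖ ≤ ‖s - t‖ + ‖t - z‖ := by
        rw [h2]
        exact norm_add_le _ _
      have h4 : (1 : ℝ) ≤ 1 / R * ‖t - z‖ := by
        rw [one_div, ← div_eq_inv_mul, le_div_iff₀ hR, one_mul]
        exact hz
      have h5 : (1 + 1 / R) * ‖t - z‖ = ‖t - z‖ + 1 / R * ‖t - z‖ := by ring
      rw [h5]
      linarith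
    have h4 : (1 : ℝ) ≤ 1 / R * ‖t - z‖ := by
      rw [one_div, ← div_eq_inv_mul, le_div_iff₀ hR, one_mul]
      exact hz
    have h6 : (s - z) * A - (t - z) * B = (s - z) * (A - B) + (s - t) * B := by ring
    rw [h6]
    have hBn := norm_nonneg B
    calc ‖(s - z) * (A - B) + (s - t) * B‖ ≤ ‖(s - z) * (A - B)‖ + ‖(s - t) * B‖ :=
          norm_add_le _ _
      _ = ‖s - z‖ * ‖A - B‖ + ‖s - t‖ * ‖B‖ := by rw [norm_mul, norm_mul]
      _ ≤ ((1 + 1 / R) * ‖t - z‖) * (((1 + 1 / R) ^ (Multiset.card m) - 1) * ‖B‖) +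
            (1 / R * ‖t - z‖) * ‖B‖ := by
          refine add_le_add (mul_le_mul h1 ih' (norm_nonneg _) ?_) ?_
          · exact mul_nonneg (by have := one_div_pos.2 hR; linarith) (norm_nonneg _)
          · exact mul_le_mul_of_nonneg_right (hst.trans h4) hBn
      _ = ((1 + 1 / R) ^ (Multiset.card m + 1) - 1) * ‖(t - z) * B‖ := by
          rw [norm_mul]
          ring

private theorem SlowC_poly (D : ℕ) (η R : ℝ) (hR : 0 < R) (hRη : (1 + 1 / R) ^ D ≤ 1 + η)
    (p : Polynomial ℂ) (hp : p.natDegree ≤ D) (s t : ℂ) (hst : ‖s - t‖ ≤ 1)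
    (hm : ∀ z ∈ p.roots, R ≤ ‖t - z‖) :
    ‖p.eval s - p.eval t‖ ≤ η * ‖p.eval t‖ := by
  have hev : ∀ x : ℂ, p.eval x = p.leadingCoeff * (p.roots.map fun z => x - z).prod := by
    intro x
    have h1 := (IsAlgClosed.splits p).eq_prod_roots
    conv_lhs => rw [h1]
    rw [Polynomial.eval_mul, Polynomial.eval_C, Polynomial.eval_multiset_prod, Multiset.map_map]
    congr 2
    refine Multiset.map_congr rfl fun z _ => ?_
    simp
  rw [hev s, hev t, ← mul_sub, norm_mul, norm_mul]
  have h1 := SlowC_prod R hR s t hst p.roots hm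
  have h2 : (1 + 1 / R) ^ (Multiset.card p.roots) - 1 ≤ η := by
    have h3 : (1 + 1 / R) ^ (Multiset.card p.roots) ≤ (1 + 1 / R) ^ D :=
      pow_le_pow_right₀ (by have := one_div_pos.2 hR; linarith) ((Polynomial.card_roots' p).trans hp)
    linarith
  calc ‖p.leadingCoeff‖ * ‖(p.roots.map fun z => s - z).prod - (p.roots.map fun z => t - z).prod‖
      ≤ ‖p.leadingCoeff‖ * (η * ‖(p.roots.map fun z => t - z).prod‖) := by
        refine mul_le_mul_of_nonneg_left (h1.trans ?_) (norm_nonneg _)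
        exact mul_le_mul_of_nonneg_right h2 (norm_nonneg _)
    _ = η * (‖p.leadingCoeff‖ * ‖(p.roots.map fun z => t - z).prod‖) := by ring

theorem slow_C (k D : ℕ) (ε η : ℝ) (hε : 0 < ε) (hη : 0 < η) : ∃ T₀ : ℝ, 2 ≤ T₀ ∧ ∀ T : ℝ, T₀ ≤ T → ∀ a : ℝ,
    ∀ q : (Fin k → Fin (D + 1)) → Polynomial ℂ, (∀ α, (q α).natDegree ≤ D) → (∃ α, q α ≠ 0) →
      volume {t : ℝ | t ∈ Icc a (a + T) ∧
        (qe q t = 0 ∨ ∃ s : ℂ, ‖s - (t : ℂ)‖ ≤ 1 ∧ η ^ 2 * nr (qe q t) < nr (qeC q s - qe q t))} ≤
          ENNReal.ofReal (ε * T) := by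
  classical
  have hlog : 0 < Real.log (1 + η) := Real.log_pos (by linarith)
  set R : ℝ := 1 + D / Real.log (1 + η) with hRdef
  have hR : 0 < R := by positivity
  have hRη : (1 + 1 / R) ^ D ≤ 1 + η := by
    have h1 : (1 + 1 / R) ≤ Real.exp (1 / R) := by
      have := Real.add_one_le_exp (1 / R)
      linarith
    have h2 : (1 + 1 / R) ^ D ≤ Real.exp (1 / R) ^ D :=
      pow_le_pow_left₀ (by positivity) h1 D
    refine h2.trans ?_
    rw [← Real.exp_nat_mul, ← Real.le_log_iff_exp_le (by linarith)]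
    rw [mul_one_div, div_le_iff₀ hR, hRdef, mul_add, mul_one, mul_div_cancel₀ _ hlog.ne']
    linarith
  set N : ℝ := ((Fintype.card (Fin k → Fin (D + 1)) : ℕ) : ℝ) * (D * (2 * R)) with hN
  have hN0 : 0 ≤ N := by positivity
  refine ⟨max 2 (N / ε), le_max_left _ _, ?_⟩
  intro T hT a q hq hq0
  have hNT : N ≤ ε * T := by
    have h1 : N / ε ≤ T := (le_max_right _ _).trans hT
    rw [div_le_iff₀ hε] at h1
    linarith
  have hsub : {t : ℝ | t ∈ Icc a (a + T) ∧
        (qe q t = 0 ∨ ∃ s : ℂ, ‖s - (t : ℂ)‖ ≤ 1 ∧ η ^ 2 * nr (qe q t) < nr (qeC q s - qe q t))} ⊆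
      ⋃ α ∈ (Finset.univ : Finset (Fin k → Fin (D + 1))), ⋃ z ∈ (q α).roots.toFinset,
        Ioo (z.re - R) (z.re + R) := by
    intro t ht
    by_contra hnot
    simp only [mem_iUnion, Finset.mem_univ, exists_prop, true_and, not_exists, not_and,
      Multiset.mem_toFinset] at hnot
    have hroot : ∀ α, ∀ z ∈ (q α).roots, R ≤ ‖(t : ℂ) - z‖ := by
      intro α z hz
      by_contra hlt
      rw [not_le] at hlt
      apply hnot α z hz
      have h1 : |((t : ℂ) - z).re| < R := (Complex.abs_re_le_norm _).trans_lt hlt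
      rw [Complex.sub_re, Complex.ofReal_re, abs_lt] at h1
      exact ⟨by linarith [h1.1], by linarith [h1.2]⟩
    rcases ht.2 with h0 | ⟨s, hs, hlt⟩
    · obtain ⟨α, hα⟩ := hq0
      have h1 : (q α).eval (t : ℂ) = 0 := congrFun h0 α
      have h2 : (t : ℂ) ∈ (q α).roots := by
        rw [Polynomial.mem_roots hα]
        exact h1
      have h3 := hroot α _ h2
      rw [sub_self, norm_zero] at h3
      linarith
    · refine absurd hlt (not_lt.2 ?_)
      unfold nr
      rw [Finset.mul_sum]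
      refine Finset.sum_le_sum fun α _ => ?_
      have h1 := SlowC_poly D η R hR hRη (q α) (hq α) s (t : ℂ) hs (hroot α)
      have h2 : ‖(qeC q s - qe q t) α‖ ≤ η * ‖qe q t α‖ := h1
      calc ‖(qeC q s - qe q t) α‖ ^ 2 ≤ (η * ‖qe q t α‖) ^ 2 :=
            pow_le_pow_left₀ (norm_nonneg _) h2 2
        _ = η ^ 2 * ‖qe q t α‖ ^ 2 := by ring
  refine (measure_mono hsub).trans ?_
  refine (measure_biUnion_finset_le _ _).trans ?_
  have hα : ∀ α ∈ (Finset.univ : Finset (Fin k → Fin (D + 1))),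
      volume (⋃ z ∈ (q α).roots.toFinset, Ioo (z.re - R) (z.re + R)) ≤
        ENNReal.ofReal (D * (2 * R)) := by
    intro α _
    refine (measure_biUnion_finset_le _ _).trans ?_
    have h1 : ∀ z ∈ (q α).roots.toFinset,
        volume (Ioo (z.re - R) (z.re + R)) = ENNReal.ofReal (2 * R) := by
      intro z _
      rw [Real.volume_Ioo]
      congr 1
      ring
    have h2 : ENNReal.ofReal (D * (2 * R)) = (D : ENNReal) * ENNReal.ofReal (2 * R) := by
      rw [ENNReal.ofReal_mul (Nat.cast_nonneg D), ENNReal.ofReal_natCast]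
    rw [Finset.sum_congr rfl h1, Finset.sum_const, nsmul_eq_mul, h2]
    gcongr
    exact ((Multiset.toFinset_card_le _).trans (Polynomial.card_roots' _)).trans (hq α)
  refine (Finset.sum_le_sum hα).trans ?_
  rw [Finset.sum_const, nsmul_eq_mul, Finset.card_univ, ← ENNReal.ofReal_natCast,
    ← ENNReal.ofReal_mul (by positivity)]
  exact ENNReal.ofReal_le_ofReal hNT

end Pool.Agent.Lib.MP_ec260d_ntR
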