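import Mathlib
import Pool.Agent.Lib.MP_ec260d_ntR.BlockNC

/-!
# The theorem for complex points at distance `K / log N` of the ordinates

As `block_all` and `finalD`, with complex points `x'` in place of the ordinates.
-/

namespace Pool.Agent.Lib.MP_ec260d_ntR

open Pool.Agent.Lib.MP_ec260d_ntB
open Pool.Agent.Lib.MP_ec260d_ntD
open Pool.Agent.Lib.MP_ec260d_nt (ordinate)

private theorem FinalC_dyad (X x : ℝ) (hx : x ≤ X) : ∀ r : ℕ, x ≤ X / 2 ^ r ∨
    ∃ i ∈ Finset.range r, X / 2 ^ (i + 1) ≤ x ∧ x ≤ 2 * (X / 2 ^ (i + 1)) := by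
  intro r
  induction r with
  | zero =>
    left
    simpa using hx
  | succ r ih =>
    have h2 : 2 * (X / 2 ^ (r + 1)) = X / 2 ^ r := by
      rw [pow_succ]
      field_simp
    rcases ih with h | ⟨i, hi, h⟩
    · rcases le_total x (X / 2 ^ (r + 1)) with h1 | h1
      · exact Or.inl h1
      · refine Or.inr ⟨r, Finset.mem_range.2 (Nat.lt_succ_self r), h1, ?_⟩
        rw [h2]
        exact h
    · exact Or.inr ⟨i, Finset.mem_range.2 (lt_trans (Finset.mem_range.1 hi) (Nat.lt_succ_self r)), h⟩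

private theorem FinalC_geom (r : ℕ) : ∑ i ∈ Finset.range r, ((2 : ℝ) ^ (i + 1))⁻¹ ≤ 1 := by
  have h : ∀ r : ℕ, ∑ i ∈ Finset.range r, ((2 : ℝ) ^ (i + 1))⁻¹ = 1 - ((2 : ℝ) ^ r)⁻¹ := by
    intro r
    induction r with
    | zero => simp
    | succ r ih =>
      rw [Finset.sum_range_succ, ih, pow_succ]
      field_simp
      ring
  rw [h r]
  have : (0 : ℝ) ≤ ((2 : ℝ) ^ r)⁻¹ := by positivity
  linarith

/-- the logarithm is small -/
private theorem FinalC_log (r : ℕ) {X : ℝ} (hX : 4 * (16 : ℝ) ^ r ≤ X) :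
    Real.log (X * Real.log X) ≤ 2 * Real.log (X / 2 ^ r) := by
  have h16 : (1 : ℝ) ≤ 16 ^ r := one_le_pow₀ (by norm_num)
  have hX4 : 4 ≤ X := by nlinarith
  have hX0 : 0 < X := by linarith
  have hl : 0 < Real.log X := Real.log_pos (by linarith)
  have hs0 : 0 < Real.sqrt X := Real.sqrt_pos.2 hX0
  have hs : Real.sqrt X * Real.sqrt X = X := Real.mul_self_sqrt hX0.le
  have h1 : Real.log X ≤ 2 * Real.sqrt X := by
    have h2 : Real.log (Real.sqrt X) ≤ Real.sqrt X := (Real.log_le_sub_one_of_pos hs0).trans (by linarith)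
    have h3 : Real.log X = 2 * Real.log (Real.sqrt X) := by
      rw [Real.log_sqrt hX0.le]
      ring
    rw [h3]
    linarith
  have h4 : 2 * (4 : ℝ) ^ r ≤ Real.sqrt X := by
    refine Real.le_sqrt_of_sq_le ?_
    have : (2 * (4 : ℝ) ^ r) ^ 2 = 4 * 16 ^ r := by
      rw [mul_pow, ← pow_mul, mul_comm r 2, pow_mul]
      norm_num
    rw [this]
    exact hX
  have h5 : (4 : ℝ) ^ r * Real.log X ≤ X := by
    have h40 : (0 : ℝ) < 4 ^ r := by positivity
    calc (4 : ℝ) ^ r * Real.log X ≤ 4 ^ r * (2 * Real.sqrt X) :=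
          mul_le_mul_of_nonneg_left h1 h40.le
      _ = (2 * 4 ^ r) * Real.sqrt X := by ring
      _ ≤ Real.sqrt X * Real.sqrt X := mul_le_mul_of_nonneg_right h4 hs0.le
      _ = X := hs
  have h6 : 2 * Real.log (X / 2 ^ r) = Real.log ((X / 2 ^ r) ^ 2) := by
    rw [Real.log_pow]
    norm_num
  rw [h6]
  refine Real.log_le_log (by positivity) ?_
  have h7 : (X / 2 ^ r) ^ 2 = X * (X / 4 ^ r) := by
    rw [div_pow, ← pow_mul, mul_comm r 2, pow_mul]
    norm_num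
    ring
  rw [h7]
  refine mul_le_mul_of_nonneg_left ?_ hX0.le
  rw [le_div_iff₀ (by positivity)]
  linarith

theorem block_allC (k D : ℕ) (ε C₁ Kd : ℝ) (hKd : 0 ≤ Kd) (hε : 0 < ε) (hC₁ : 0 ≤ C₁) : ∃ (M : ℕ) (T₀ : ℝ), 1 ≤ M ∧ 20 ≤ T₀ ∧
    ∀ T : ℝ, T₀ ≤ T → ∀ m : Fin (k + 1) → ℕ, m 0 = 0 → (∀ i : Fin k, m i.castSucc + M ≤ m i.succ) →
      (m (Fin.last k) : ℝ) ≤ C₁ * (T * Real.log T) →
      ∀ P : MvPolynomial (Fin (k + 1)) ℂ, P ≠ 0 → P.totalDegree ≤ D →
        ∀ F : Finset ℕ, (∀ n ∈ F, 1 ≤ n ∧ T ≤ ordinate n ∧ ordinate n ≤ 2 * T ∧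
          ∃ x' : Fin (k + 1) → ℂ, (∀ i, ‖x' i - ((ordinate (n + m i) : ℝ) : ℂ)‖ ≤ Kd * hT T) ∧
            MvPolynomial.eval x' P = 0) →
        (F.card : ℝ) ≤ ε * (T * Real.log T) := by
  classical
  set A₀ : ℝ := 24 * ((k : ℝ) + 3) ^ 2 with hA₀
  set κ₀ : ℝ := 1 / (200 * ((k : ℝ) + 3) ^ 2) with hκ₀
  have hk3 : (0 : ℝ) < (k : ℝ) + 3 := by positivity
  have hA1 : 1 ≤ A₀ := by
    rw [hA₀]
    have : (1 : ℝ) ≤ ((k : ℝ) + 3) ^ 2 := by
      have : (0 : ℝ) ≤ k := Nat.cast_nonneg k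
      nlinarith
    linarith
  have hκ0 : 0 < κ₀ := by positivity
  have hκj : ∀ j : ℕ, 0 < κ₀ / A₀ ^ j := fun j => div_pos hκ0 (pow_pos (by linarith) j)
  have hκj1 : ∀ j : ℕ, 200 * ((k : ℝ) + 3) ^ 2 * (κ₀ / A₀ ^ j) ≤ 1 := by
    intro j
    have h1 : κ₀ / A₀ ^ j ≤ κ₀ := div_le_self hκ0.le (one_le_pow₀ hA1)
    calc 200 * ((k : ℝ) + 3) ^ 2 * (κ₀ / A₀ ^ j) ≤ 200 * ((k : ℝ) + 3) ^ 2 * κ₀ :=
          mul_le_mul_of_nonneg_left h1 (by positivity)
      _ = 1 := by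
          rw [hκ₀]
          field_simp
  choose Mj Tj hM hT hblock using fun j : ℕ =>
    block_NC k D (κ₀ / A₀ ^ j) ε C₁ Kd hKd (hκj j) (hκj1 j) hε hC₁
  have hMle : ∀ j ∈ Finset.range (k + 1), Mj j ≤ ∑ j ∈ Finset.range (k + 1), Mj j := fun j hj =>
    Finset.single_le_sum (f := Mj) (fun i _ => Nat.zero_le _) hj
  have hTle : ∀ j ∈ Finset.range (k + 1), Tj j ≤ ∑ j ∈ Finset.range (k + 1), Tj j := fun j hj =>
    Finset.single_le_sum (f := Tj) (fun i _ => le_trans (by norm_num) (hT i)) hj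
  have h0 : 0 ∈ Finset.range (k + 1) := Finset.mem_range.2 (Nat.succ_pos k)
  refine ⟨∑ j ∈ Finset.range (k + 1), Mj j, ∑ j ∈ Finset.range (k + 1), Tj j,
    (hM 0).trans (hMle 0 h0), (hT 0).trans (hTle 0 h0), ?_⟩
  intro T hTT m hm0 hm hml P hP hPD F hF
  have hT20 : 20 ≤ T := ((hT 0).trans (hTle 0 h0)).trans hTT
  obtain ⟨j, hj, hg⟩ := pig k A₀ κ₀ T hA1 hκ0 (by linarith)
    (fun l : Fin k => (m l.succ : ℝ) - m l.castSucc)
  have hjm : j ∈ Finset.range (k + 1) := Finset.mem_range.2 (Nat.lt_succ_of_le hj)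
  refine hblock j T ((hTle j hjm).trans hTT) m hm0 (fun i => ?_) hml (fun l => ?_) P hP hPD F hF
  · exact (Nat.add_le_add_left (hMle j hjm) _).trans (hm i)
  · have e : A₀ * (κ₀ / A₀ ^ j) = 3 * (8 * ((k : ℝ) + 3) ^ 2 * (κ₀ / A₀ ^ j)) := by
      have : A₀ = 3 * (8 * ((k : ℝ) + 3) ^ 2) := by rw [hA₀]; ring
      calc A₀ * (κ₀ / A₀ ^ j) = (3 * (8 * ((k : ℝ) + 3) ^ 2)) * (κ₀ / A₀ ^ j) := by
            conv_lhs => rw [this]
            rw [← this]
        _ = _ := by ring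
    have h1 := hg l
    rw [e] at h1
    exact h1

theorem finalC (k D : ℕ) (ε C K : ℝ) (hε : 0 < ε) (hC : 0 ≤ C) : ∃ M N₀ : ℕ, ∀ N : ℕ, N₀ ≤ N →
    ∀ m : Fin (k + 1) → ℕ, m 0 = 0 → (∀ i : Fin k, m i.castSucc + M ≤ m i.succ) →
      (m (Fin.last k) : ℝ) ≤ C * N → ∀ P : MvPolynomial (Fin (k + 1)) ℂ, P ≠ 0 →
        P.totalDegree ≤ D → ∀ F : Finset ℕ, (∀ n ∈ F, 1 ≤ n ∧ n ≤ N ∧
          ∃ x' : Fin (k + 1) → ℂ, (∀ i, ‖x' i - ((ordinate (n + m i) : ℝ) : ℂ)‖ ≤ K / Real.log N) ∧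
            MvPolynomial.eval x' P = 0) →
        (F.card : ℝ) ≤ ε * N := by
  classical
  obtain ⟨n₀, hn₀, hasym⟩ := ord_asym
  obtain ⟨r, hr⟩ := exists_pow_lt_of_lt_one (show (0 : ℝ) < ε / 60 by positivity)
    (show (1 / 2 : ℝ) < 1 by norm_num)
  obtain ⟨M, T₀, -, hT₀, hblock⟩ := block_allC k D (ε / 60) (2 * 2 ^ r * C) (max K 0)
    (le_max_right _ _) (by positivity) (by positivity)
  have hr' : ((2 : ℝ) ^ r)⁻¹ ≤ ε / 60 := by
    rw [one_div, inv_pow] at hr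
    exact hr.le
  have h2r : (0 : ℝ) < 2 ^ r := by positivity
  -- the threshold for the ordinate
  set X₁ : ℝ := max (2 ^ r * T₀) (4 * 16 ^ r) with hX₁
  have hX₁4 : 4 ≤ X₁ := by
    have : (1 : ℝ) ≤ 16 ^ r := one_le_pow₀ (by norm_num)
    exact le_trans (by linarith) (le_max_right _ _)
  obtain ⟨N₁, hN₁⟩ := exists_nat_gt (X₁ * Real.log X₁)
  obtain ⟨N₂, hN₂⟩ := exists_nat_gt (2 * n₀ / ε)
  refine ⟨M, max 7 (max n₀ (max N₁ N₂)), ?_⟩
  intro N hN7 m hm0 hm hml P hP hPD F hF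
  have hN : max n₀ (max N₁ N₂) ≤ N := (le_max_right _ _).trans hN7
  have hN7R : (7 : ℝ) ≤ N := by exact_mod_cast (le_max_left _ _).trans hN7
  have hNn : n₀ ≤ N := (le_max_left _ _).trans hN
  have hN1 : (N₁ : ℝ) ≤ N := by
    exact_mod_cast (le_max_left _ _).trans ((le_max_right _ _).trans hN)
  have hN2 : (N₂ : ℝ) ≤ N := by
    exact_mod_cast (le_max_right _ _).trans ((le_max_right _ _).trans hN)
  have hN0 : 1 ≤ N := hn₀.trans hNn
  have hNR : (1 : ℝ) ≤ N := by exact_mod_cast hN0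
  obtain ⟨hX2, hXlow, hXup⟩ := hasym N hNn
  set X : ℝ := ordinate N with hX
  have hX0 : 0 < X := by linarith
  have hlX : 0 < Real.log X := Real.log_pos (by linarith)
  have hXX : X₁ ≤ X := by
    by_contra hcon
    have hcon' : X < X₁ := lt_of_not_ge hcon
    have h1 : X * Real.log X ≤ X₁ * Real.log X₁ :=
      mul_le_mul hcon'.le (Real.log_le_log hX0 hcon'.le) hlX.le (by linarith)
    linarith
  have hXr : 2 ^ r * T₀ ≤ X := (le_max_left _ _).trans hXX
  have hX16 : 4 * (16 : ℝ) ^ r ≤ X := (le_max_right _ _).trans hXX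
  have hlogX : Real.log X ≤ 2 * Real.log (X / 2 ^ r) := by
    refine le_trans (Real.log_le_log hX0 ?_) (FinalC_log r hX16)
    have h1 : (1 : ℝ) ≤ 16 ^ r := one_le_pow₀ (by norm_num)
    have h2 : 1 ≤ Real.log X := by
      rw [Real.le_log_iff_exp_le hX0]
      have := Real.exp_one_lt_d9
      linarith
    nlinarith
  have hXrT : T₀ ≤ X / 2 ^ r := by
    rw [le_div_iff₀ h2r]
    linarith
  have hlXN : Real.log X ≤ 2 * Real.log N := by
    have h2 : 1 ≤ Real.log X := by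
      rw [Real.le_log_iff_exp_le hX0]
      have := Real.exp_one_lt_d9
      linarith
    have h3a : X ≤ X * Real.log X := le_mul_of_one_le_right hX0.le h2
    have h3b : 7 * (N : ℝ) ≤ N ^ 2 := by nlinarith
    have h3 : X ≤ (N : ℝ) ^ 2 := by linarith
    calc Real.log X ≤ Real.log ((N : ℝ) ^ 2) := Real.log_le_log hX0 h3
      _ = 2 * Real.log N := by
          rw [Real.log_pow]
          norm_num
  -- the pieces
  have hpiece : ∀ i ∈ Finset.range r,
      (((F.filter fun n => X / 2 ^ (i + 1) ≤ ordinate n ∧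
        ordinate n ≤ 2 * (X / 2 ^ (i + 1))).card : ℕ) : ℝ) ≤
        7 * (ε / 60) * N * ((2 : ℝ) ^ (i + 1))⁻¹ := by
    intro i hi
    have hir : i + 1 ≤ r := Finset.mem_range.1 hi
    have h2i : (0 : ℝ) < 2 ^ (i + 1) := by positivity
    have hle : (2 : ℝ) ^ (i + 1) ≤ 2 ^ r := pow_le_pow_right₀ (by norm_num) hir
    have h3 : X / 2 ^ r ≤ X / 2 ^ (i + 1) := div_le_div_of_nonneg_left hX0.le h2i hle
    have hTi : T₀ ≤ X / 2 ^ (i + 1) := hXrT.trans h3
    have h4 : (m (Fin.last k) : ℝ) ≤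
        2 * 2 ^ r * C * (X / 2 ^ (i + 1) * Real.log (X / 2 ^ (i + 1))) := by
      have h5 : Real.log (X / 2 ^ r) ≤ Real.log (X / 2 ^ (i + 1)) :=
        Real.log_le_log (by positivity) h3
      have h6 : Real.log X ≤ 2 * Real.log (X / 2 ^ (i + 1)) := hlogX.trans (by linarith)
      have h7 : X ≤ 2 ^ r * (X / 2 ^ (i + 1)) := by
        have h8 : X = 2 ^ (i + 1) * (X / 2 ^ (i + 1)) := by field_simp
        have h9 : (2 : ℝ) ^ (i + 1) * (X / 2 ^ (i + 1)) ≤ 2 ^ r * (X / 2 ^ (i + 1)) :=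
          mul_le_mul_of_nonneg_right hle (by positivity)
        linarith
      calc (m (Fin.last k) : ℝ) ≤ C * N := hml
        _ ≤ C * (X * Real.log X) := mul_le_mul_of_nonneg_left hXlow hC
        _ ≤ C * ((2 ^ r * (X / 2 ^ (i + 1))) * (2 * Real.log (X / 2 ^ (i + 1)))) :=
            mul_le_mul_of_nonneg_left (mul_le_mul h7 h6 hlX.le (by positivity)) hC
        _ = 2 * 2 ^ r * C * (X / 2 ^ (i + 1) * Real.log (X / 2 ^ (i + 1))) := by ring
    have h6 := hblock (X / 2 ^ (i + 1)) hTi m hm0 hm h4 P hP hPD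
      (F.filter fun n => X / 2 ^ (i + 1) ≤ ordinate n ∧ ordinate n ≤ 2 * (X / 2 ^ (i + 1))) (by
        intro n hn
        obtain ⟨hnF, h7, h8⟩ := Finset.mem_filter.1 hn
        obtain ⟨h9, -, x', hx', h10⟩ := hF n hnF
        refine ⟨h9, h7, h8, x', fun i' => (hx' i').trans ?_, h10⟩
        have hXi : X / 2 ^ (i + 1) ≤ X := div_le_self hX0.le (one_le_pow₀ (by norm_num))
        have h11 : Real.log (X / 2 ^ (i + 1)) ≤ Real.log X := Real.log_le_log (by positivity) hXi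
        have h12 : 0 < Real.log (X / 2 ^ (i + 1)) := Real.log_pos (by linarith)
        have h13 : 0 < Real.log N := Real.log_pos (by linarith)
        have h14 : K / Real.log N ≤ max K 0 / Real.log N :=
          div_le_div_of_nonneg_right (le_max_left _ _) h13.le
        have h15 : max K 0 * hT (X / 2 ^ (i + 1)) =
            max K 0 * (2 * Real.pi) / Real.log (X / 2 ^ (i + 1)) := by
          unfold hT
          ring
        rw [h15]
        refine h14.trans ?_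
        rw [div_le_div_iff₀ h13 h12]
        have h16 : Real.log (X / 2 ^ (i + 1)) ≤ 2 * Real.pi * Real.log N := by
          have h17 : 2 * Real.log N ≤ 2 * Real.pi * Real.log N :=
            mul_le_mul_of_nonneg_right (by linarith [Real.pi_gt_three]) h13.le
          linarith
        have h18 := mul_le_mul_of_nonneg_left h16 (le_max_right K 0)
        linarith)
    refine h6.trans ?_
    have hXi : X / 2 ^ (i + 1) ≤ X := div_le_self hX0.le (one_le_pow₀ (by norm_num))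
    have h11 : Real.log (X / 2 ^ (i + 1)) ≤ Real.log X := Real.log_le_log (by positivity) hXi
    calc ε / 60 * (X / 2 ^ (i + 1) * Real.log (X / 2 ^ (i + 1)))
        ≤ ε / 60 * (X / 2 ^ (i + 1) * Real.log X) :=
          mul_le_mul_of_nonneg_left (mul_le_mul_of_nonneg_left h11 (by positivity)) (by positivity)
      _ = ε / 60 * ((2 : ℝ) ^ (i + 1))⁻¹ * (X * Real.log X) := by
          field_simp
      _ ≤ ε / 60 * ((2 : ℝ) ^ (i + 1))⁻¹ * (7 * N) :=
          mul_le_mul_of_nonneg_left hXup (by positivity)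
      _ = 7 * (ε / 60) * N * ((2 : ℝ) ^ (i + 1))⁻¹ := by ring
  -- the rest
  have hrest : (((F.filter fun n => ordinate n ≤ X / 2 ^ r).card : ℕ) : ℝ) ≤
      n₀ + 7 * (ε / 60) * N := by
    have hsub : (F.filter fun n => ordinate n ≤ X / 2 ^ r) ⊆
        Finset.range n₀ ∪ Finset.Icc 1 ⌊7 * (ε / 60) * N⌋₊ := by
      intro n hn
      obtain ⟨hnF, h7⟩ := Finset.mem_filter.1 hn
      obtain ⟨h9, -, -⟩ := hF n hnF
      rw [Finset.mem_union, Finset.mem_range, Finset.mem_Icc]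
      rcases lt_or_ge n n₀ with h8 | h8
      · exact Or.inl h8
      · right
        refine ⟨h9, Nat.le_floor ?_⟩
        obtain ⟨ho2, holow, -⟩ := hasym n h8
        have hle : ordinate n ≤ X := h7.trans (div_le_self hX0.le (one_le_pow₀ (by norm_num)))
        have hlo : 0 ≤ Real.log (ordinate n) := Real.log_nonneg (by linarith)
        calc (n : ℝ) ≤ ordinate n * Real.log (ordinate n) := holow
          _ ≤ X / 2 ^ r * Real.log X :=
              mul_le_mul h7 (Real.log_le_log (by linarith) hle) hlo (by positivity)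
          _ = ((2 : ℝ) ^ r)⁻¹ * (X * Real.log X) := by
              field_simp
          _ ≤ ε / 60 * (7 * N) :=
              mul_le_mul hr' hXup (by positivity) (by positivity)
          _ = 7 * (ε / 60) * N := by ring
    have h1 := (Finset.card_le_card hsub).trans (Finset.card_union_le _ _)
    rw [Finset.card_range, Nat.card_Icc, Nat.add_sub_cancel] at h1
    have h2 : (((F.filter fun n => ordinate n ≤ X / 2 ^ r).card : ℕ) : ℝ) ≤
        (n₀ : ℝ) + (⌊7 * (ε / 60) * N⌋₊ : ℕ) := by exact_mod_cast h1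
    have h3 : ((⌊7 * (ε / 60) * (N : ℝ)⌋₊ : ℕ) : ℝ) ≤ 7 * (ε / 60) * N :=
      Nat.floor_le (by positivity)
    linarith
  -- the cover
  have hcov : F ⊆ ((Finset.range r).biUnion fun i => F.filter fun n =>
      X / 2 ^ (i + 1) ≤ ordinate n ∧ ordinate n ≤ 2 * (X / 2 ^ (i + 1))) ∪
      (F.filter fun n => ordinate n ≤ X / 2 ^ r) := by
    intro n hn
    obtain ⟨h9, h10, -⟩ := hF n hn
    rw [Finset.mem_union, Finset.mem_biUnion]
    rcases FinalC_dyad X (ordinate n) (ord_mono h9 h10) r with h | ⟨i, hi, h⟩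
    · exact Or.inr (Finset.mem_filter.2 ⟨hn, h⟩)
    · exact Or.inl ⟨i, hi, Finset.mem_filter.2 ⟨hn, h⟩⟩
  have hcard := (Finset.card_le_card hcov).trans ((Finset.card_union_le _ _).trans
    (Nat.add_le_add_right Finset.card_biUnion_le _))
  have hcard' : (F.card : ℝ) ≤ ∑ i ∈ Finset.range r,
      (((F.filter fun n => X / 2 ^ (i + 1) ≤ ordinate n ∧
        ordinate n ≤ 2 * (X / 2 ^ (i + 1))).card : ℕ) : ℝ) +
      (((F.filter fun n => ordinate n ≤ X / 2 ^ r).card : ℕ) : ℝ) := by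
    exact_mod_cast hcard
  have hsum := Finset.sum_le_sum hpiece
  rw [← Finset.mul_sum] at hsum
  have hgeo : 7 * (ε / 60) * N * ∑ i ∈ Finset.range r, ((2 : ℝ) ^ (i + 1))⁻¹ ≤
      7 * (ε / 60) * N * 1 :=
    mul_le_mul_of_nonneg_left (FinalC_geom r) (by positivity)
  have hn₀ε : (n₀ : ℝ) ≤ ε * N / 2 := by
    have h1 : 2 * (n₀ : ℝ) / ε ≤ N := hN₂.le.trans hN2
    rw [div_le_iff₀ hε] at h1
    linarith
  have hεN : 0 < ε * N := by positivity
  linarith

end Pool.Agent.Lib.MP_ec260d_ntR
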