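import Mathlib
import Pool.Agent.Lib.MP_ec260d_ntW.WB1
import Pool.Agent.Lib.MP_ec260d_ntR.FinalC

/-!
# `Hyp` for the points at distance `K / log N` of the ordinates
-/

namespace Pool.Agent.Lib.MP_ec260d_ntR

open Pool.Agent.Lib.MP_ec260d_ntW
open Pool.Agent.Lib.MP_ec260d_nt (ordinate)

/-- the complex points at distance at most `K / log N` of the `n`-th ordinate -/
def near (K : ℝ) (N n : ℕ) : Set ℂ := {x : ℂ | ‖x - ((ordinate n : ℝ) : ℂ)‖ ≤ K / Real.log N}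

theorem hyp_near (K : ℝ) : Hyp (near K) := by
  classical
  intro k D e c he hc
  obtain ⟨M, N0, h⟩ := finalC k D e c K he hc
  refine ⟨M, N0, fun N hN m hm0 hm hmc P hP hPD => h N hN m hm0 hm hmc P hP hPD _ fun n hn => ?_⟩
  rw [Finset.mem_filter, Finset.mem_Icc] at hn
  obtain ⟨⟨h1, h2⟩, x, hx, hx0⟩ := hn
  exact ⟨h1, h2, x, hx, hx0⟩

end Pool.Agent.Lib.MP_ec260d_ntR
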