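import Mathlib
import Pool.Agent.Lib.MP_ec260d_ntW.W2
import Pool.Agent.Lib.MP_ec260d_ntR.NearG

/-!
# The theorem on relations with parameters, for the ordinates
-/

namespace Pool.Agent.Lib.MP_ec260d_ntR

open MvPolynomial
open Pool.Agent.Lib.MP_ec260d_ntW
open Pool.Agent.Lib.MP_ec260d_nt (ordinate)

theorem elimSt : ElimSt := fun _ _ _ _ _ _ hVS b D => elim hVS b D

/-- the comparison of the distances for `N` and `N + t₀` -/
theorem near_mono {K C : ℝ} {N t₀ m : ℕ} (hN : 1 + C ≤ N) (hN2 : 2 ≤ N) (ht : (t₀ : ℝ) ≤ C * N)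
    {x : ℂ} (hx : ‖x - ((ordinate m : ℝ) : ℂ)‖ ≤ K / Real.log N) : x ∈ near (2 * |K|) (N + t₀) m := by
  have hN2R : (2 : ℝ) ≤ N := by exact_mod_cast hN2
  have hl : 0 < Real.log N := Real.log_pos (by linarith)
  have ht0 : (0 : ℝ) ≤ t₀ := Nat.cast_nonneg _
  have h1 : Real.log ((N + t₀ : ℕ) : ℝ) ≤ 2 * Real.log N := by
    have h2 : ((N + t₀ : ℕ) : ℝ) ≤ (N : ℝ) ^ 2 := by
      push_cast
      have h3 : (1 + C) * (N : ℝ) ≤ N * N := mul_le_mul_of_nonneg_right hN (by linarith)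
      rw [sq]
      linarith
    calc Real.log ((N + t₀ : ℕ) : ℝ) ≤ Real.log ((N : ℝ) ^ 2) := by
          refine Real.log_le_log ?_ h2
          push_cast
          linarith
      _ = 2 * Real.log N := by
          rw [Real.log_pow]
          norm_num
  have h4 : 0 < Real.log ((N + t₀ : ℕ) : ℝ) := by
    refine Real.log_pos ?_
    push_cast
    linarith
  show ‖x - ((ordinate m : ℝ) : ℂ)‖ ≤ 2 * |K| / Real.log ((N + t₀ : ℕ) : ℝ)
  refine hx.trans ?_
  rw [div_le_div_iff₀ hl h4]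
  calc K * Real.log ((N + t₀ : ℕ) : ℝ) ≤ |K| * Real.log ((N + t₀ : ℕ) : ℝ) :=
        mul_le_mul_of_nonneg_right (le_abs_self K) h4.le
    _ ≤ |K| * (2 * Real.log N) := mul_le_mul_of_nonneg_left h1 (abs_nonneg K)
    _ = 2 * |K| * Real.log N := by ring

open Classical in
/-- counting after a translation of the index -/
theorem count_shift {ε C : ℝ} (hε : 0 < ε) (hC : 0 ≤ C) {N t₀ : ℕ} (ht : (t₀ : ℝ) ≤ C * N) (P P' : ℕ → Prop)
    (hPP : ∀ n, P n → P' (n + t₀))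
    (h : (((Finset.Icc 1 (N + t₀)).filter P').card : ℝ) ≤ ε / (1 + C) * ((N + t₀ : ℕ) : ℝ)) :
    (((Finset.Icc 1 N).filter P).card : ℝ) ≤ ε * N := by
  have h1 : ((Finset.Icc 1 N).filter P).card ≤ ((Finset.Icc 1 (N + t₀)).filter P').card := by
    refine Finset.card_le_card_of_injOn (fun n => n + t₀) (fun n hn => ?_) fun a _ b _ hab => ?_
    · have hn' := Finset.mem_filter.1 (Finset.mem_coe.1 hn)
      obtain ⟨h2, h3⟩ := hn'
      rw [Finset.mem_Icc] at h2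
      refine Finset.mem_coe.2 (Finset.mem_filter.2 ⟨Finset.mem_Icc.2 ⟨?_, ?_⟩, hPP n h3⟩)
      · show 1 ≤ n + t₀
        omega
      · show n + t₀ ≤ N + t₀
        omega
    · have : a + t₀ = b + t₀ := hab
      omega
  have h2 : (((Finset.Icc 1 N).filter P).card : ℝ) ≤ ((Finset.Icc 1 (N + t₀)).filter P').card := by
    exact_mod_cast h1
  refine h2.trans (h.trans ?_)
  have h3 : ((N + t₀ : ℕ) : ℝ) ≤ (1 + C) * N := by
    push_cast
    linarith
  calc ε / (1 + C) * ((N + t₀ : ℕ) : ℝ) ≤ ε / (1 + C) * ((1 + C) * N) :=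
        mul_le_mul_of_nonneg_left h3 (by positivity)
    _ = ε * N := by
        field_simp

open Classical in
theorem thmT (d k D H : ℕ) (ε C K : ℝ) (hε : 0 < ε) : ∃ M N₀ : ℕ, ∀ N : ℕ, N₀ ≤ N →
    ∀ t : Fin (d + 1) → Fin (k + 1) → ℕ, (∀ j i, (t j i : ℝ) ≤ C * N) →
      (∀ j i j' i', (j, i) ≠ (j', i') → (M : ℝ) ≤ |(t j i : ℝ) - t j' i'|) →
      ∀ Q : Fin (d + 1) → Finset (MvPolynomial (Fin d ⊕ Fin (k + 1)) ℂ),
        (∀ j, (Q j).card ≤ H ∧ ∀ q ∈ Q j, q.totalDegree ≤ D) →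
        (((Finset.Icc 1 N).filter (fun n : ℕ => ∃ (v : Fin d → ℂ) (x : Fin (d + 1) → Fin (k + 1) → ℂ),
          (∀ j i, ‖x j i - ((ordinate (n + t j i) : ℝ) : ℂ)‖ ≤ K / Real.log N) ∧
          ∀ j, ∃ q ∈ Q j, (∃ z : Fin (k + 1) → ℂ, eval (Sum.elim v z) q ≠ 0) ∧
            eval (Sum.elim v (x j)) q = 0)).card : ℝ) ≤ ε * N := by
  have hC0 : 0 ≤ max C 0 := le_max_right _ _
  obtain ⟨M, N₁, h⟩ := wind_T elimSt (hyp_near (2 * |K|)) (Fin d) (Fin (d + 1)) (by simp) k D H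
    (ε / (1 + max C 0)) (max C 0) (by positivity) hC0
  obtain ⟨N₂, hN₂⟩ := exists_nat_ge (1 + max C 0)
  refine ⟨M, max N₁ (max N₂ 2), fun N hN t htC hsep Q hQ => ?_⟩
  have hN1 : N₁ ≤ N := (le_max_left _ _).trans hN
  have hN2 : (N₂ : ℝ) ≤ N := by
    exact_mod_cast (le_max_left _ _).trans ((le_max_right _ _).trans hN)
  have hN3 : 2 ≤ N := (le_max_right _ _).trans ((le_max_right _ _).trans hN)
  have hNR : (0 : ℝ) ≤ N := Nat.cast_nonneg _
  have htC' : ∀ j i, (t j i : ℝ) ≤ max C 0 * N := fun j i =>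
    (htC j i).trans (mul_le_mul_of_nonneg_right (le_max_left _ _) hNR)
  -- the least shift
  obtain ⟨⟨j₀, i₀⟩, -, hmin⟩ := Finset.exists_min_image (Finset.univ : Finset (Fin (d + 1) × Fin (k + 1)))
    (fun a => t a.1 a.2) ⟨(0, 0), Finset.mem_univ _⟩
  have hmin' : ∀ j i, t j₀ i₀ ≤ t j i := fun j i => hmin (j, i) (Finset.mem_univ _)
  refine count_shift hε hC0 (htC' j₀ i₀) _ (fun n : ℕ => ∃ (v : Fin d → ℂ) (x : Fin (d + 1) → Fin (k + 1) → ℂ),
          (∀ s i, x s i ∈ near (2 * |K|) (N + t j₀ i₀) (n + (t s i - t j₀ i₀))) ∧ ∀ s, ∃ q ∈ Q s,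
            (∃ z : Fin (k + 1) → ℂ, eval (Sum.elim v z) q ≠ 0) ∧
              eval (Sum.elim v (x s)) q = 0) ?_
    (h (N + t j₀ i₀) (hN1.trans (Nat.le_add_right _ _)) (fun j i => t j i - t j₀ i₀) ?_ ?_ ?_ Q hQ)
  · rintro n ⟨v, x, hx, hq⟩
    refine ⟨v, x, fun s i => ?_, hq⟩
    have e : n + t j₀ i₀ + (t s i - t j₀ i₀) = n + t s i := by
      have := hmin' s i
      omega
    rw [e]
    exact near_mono (hN₂.trans hN2) hN3 (htC' j₀ i₀) (hx s i)
  · exact ⟨j₀, i₀, Nat.sub_self _⟩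
  · intro s i s' i' hne
    have h1 := hsep s i s' i' hne
    have h2 := hmin' s i
    have h3 := hmin' s' i'
    rcases le_abs.1 h1 with h4 | h4
    · right
      have h5 : ((t s' i' + M : ℕ) : ℝ) ≤ t s i := by
        push_cast
        linarith
      have h6 : t s' i' + M ≤ t s i := by exact_mod_cast h5
      show t s' i' - t j₀ i₀ + M ≤ t s i - t j₀ i₀
      omega
    · left
      have h5 : ((t s i + M : ℕ) : ℝ) ≤ t s' i' := by
        push_cast
        linarith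
      have h6 : t s i + M ≤ t s' i' := by exact_mod_cast h5
      show t s i - t j₀ i₀ + M ≤ t s' i' - t j₀ i₀
      omega
  · intro s i
    have h1 : ((t s i - t j₀ i₀ : ℕ) : ℝ) ≤ t s i := by exact_mod_cast Nat.sub_le _ _
    have h2 : max C 0 * (N : ℝ) ≤ max C 0 * ((N + t j₀ i₀ : ℕ) : ℝ) := by
      refine mul_le_mul_of_nonneg_left ?_ hC0
      exact_mod_cast Nat.le_add_right _ _
    exact h1.trans ((htC' s i).trans h2)

end Pool.Agent.Lib.MP_ec260d_ntR
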