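import Mathlib
import Pool.Agent.Lib.MP_ec260d_ntW.WB2
import Pool.Agent.Lib.MP_ec260d_ntR.TMain

/-!
# Linear forms in consecutive ordinates are not small for a positive proportion of the indices
-/

namespace Pool.Agent.Lib.MP_ec260d_ntR

open MvPolynomial Matrix
open Pool.Agent.Lib.MP_ec260d_ntW (Hyp ElimSt elim wind_W)
open Pool.Agent.Lib.MP_ec260d_nt (ordinate)

/-- extension of a finite vector by zero, beginning at `s` -/
private def lfx (L s : ℕ) (z : Fin (L + 1) → ℂ) (j : ℕ) : ℂ :=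
  if h : s ≤ j ∧ j < s + (L + 1) then z ⟨j - s, by omega⟩ else 0

private theorem lfx_at (L s : ℕ) (z : Fin (L + 1) → ℂ) (m : Fin (L + 1)) : lfx L s z (s + m) = z m := by
  have := m.2
  rw [lfx, dif_pos ⟨by omega, by omega⟩]
  congr 1
  exact Fin.ext (by simp)

/-- the linear map of the band matrix -/
private noncomputable def lfT (k L s : ℕ) (a : Fin (k + 1) → ℂ) : (Fin (L + 1) → ℂ) →ₗ[ℂ] (Fin (L + 1) → ℂ) where
  toFun z := fun m => ∑ i : Fin (k + 1), a i * lfx L s z (m + i)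
  map_add' z z' := by
    funext m
    rw [Pi.add_apply, ← Finset.sum_add_distrib]
    refine Finset.sum_congr rfl fun i _ => ?_
    rw [← mul_add]
    congr 1
    unfold lfx
    by_cases h : s ≤ (m : ℕ) + i ∧ (m : ℕ) + i < s + (L + 1)
    · rw [dif_pos h, dif_pos h, dif_pos h, Pi.add_apply]
    · rw [dif_neg h, dif_neg h, dif_neg h, add_zero]
  map_smul' c z := by
    funext m
    rw [RingHom.id_apply, Pi.smul_apply, smul_eq_mul, Finset.mul_sum]
    refine Finset.sum_congr rfl fun i _ => ?_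
    rw [mul_left_comm]
    congr 1
    unfold lfx
    by_cases h : s ≤ (m : ℕ) + i ∧ (m : ℕ) + i < s + (L + 1)
    · rw [dif_pos h, dif_pos h, Pi.smul_apply, smul_eq_mul]
    · rw [dif_neg h, dif_neg h, mul_zero]

/-- the bound -/
private theorem lf_bound (k L : ℕ) (R : ℝ) (hR : R = 2 * ((k : ℝ) + 1)) (a : Fin (k + 1) → ℂ) (s : Fin (k + 1))
    (hs0 : 0 < ‖a s‖) (hs : ∀ i, ‖a i‖ * R ^ ((i : ℕ) ^ 2) ≤ ‖a s‖ * R ^ ((s : ℕ) ^ 2)) (z : Fin (L + 1) → ℂ)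
    (η : ℝ) (hη : ∀ m, ‖lfT k L s a z m‖ ≤ η) (m : Fin (L + 1)) :
    ‖z m‖ * ‖a s‖ ≤ 2 * η * R ^ (2 * (s : ℕ) * L) := by
  have hR2 : 2 ≤ R := by
    rw [hR]
    have : (0 : ℝ) ≤ k := Nat.cast_nonneg k
    linarith
  have hR0 : 0 < R := by linarith
  have hR1 : 1 ≤ R := by linarith
  obtain ⟨ρ, hρ⟩ : ∃ ρ : ℝ, ρ = R ^ (2 * (s : ℕ)) := ⟨_, rfl⟩
  have hρ1 : 1 ≤ ρ := by rw [hρ]; exact one_le_pow₀ hR1
  have hρ0 : 0 < ρ := by linarith
  obtain ⟨m₀, -, hm₀⟩ := Finset.exists_max_image (Finset.univ : Finset (Fin (L + 1)))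
    (fun m => ‖z m‖ / ρ ^ (m : ℕ)) ⟨0, Finset.mem_univ _⟩
  obtain ⟨W, hW⟩ : ∃ W, W = ‖z m₀‖ / ρ ^ (m₀ : ℕ) := ⟨_, rfl⟩
  have hW0 : 0 ≤ W := by rw [hW]; positivity
  have hz : ∀ m : Fin (L + 1), ‖z m‖ ≤ W * ρ ^ (m : ℕ) := by
    intro m
    have h1 := hm₀ m (Finset.mem_univ _)
    rw [hW, ← div_le_iff₀ (by positivity)]
    exact h1
  have hx : ∀ j : ℕ, ‖lfx L s z j‖ * ρ ^ (s : ℕ) ≤ W * ρ ^ j := by
    intro j
    unfold lfx
    by_cases h : (s : ℕ) ≤ j ∧ j < s + (L + 1)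
    · rw [dif_pos h]
      have h1 := hz ⟨j - s, by omega⟩
      have h2 : ρ ^ j = ρ ^ (j - (s : ℕ)) * ρ ^ (s : ℕ) := by
        rw [← pow_add]
        congr 1
        omega
      rw [h2, ← mul_assoc]
      exact mul_le_mul_of_nonneg_right h1 (by positivity)
    · rw [dif_neg h, norm_zero, zero_mul]
      positivity
  -- the coefficients
  have ha : ∀ i : Fin (k + 1), i ≠ s → ‖a i‖ * ρ ^ (i : ℕ) * R ≤ ‖a s‖ * ρ ^ (s : ℕ) := by
    intro i his
    have h1 := hs i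
    have h2 : (s : ℕ) ^ 2 + 2 * s * i + 1 ≤ (i : ℕ) ^ 2 + 2 * s * s := by
      have h3 : (i : ℕ) ≠ s := fun h => his (Fin.ext h)
      rcases lt_or_gt_of_ne h3 with h4 | h4
      · obtain ⟨c, hc⟩ : ∃ c, (s : ℕ) = i + c + 1 := ⟨s - i - 1, by omega⟩
        rw [hc]
        nlinarith [Nat.zero_le c]
      · obtain ⟨c, hc⟩ : ∃ c, (i : ℕ) = s + c + 1 := ⟨i - s - 1, by omega⟩
        rw [hc]
        nlinarith [Nat.zero_le c]
    have h5 : 0 < R ^ ((i : ℕ) ^ 2) := by positivity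
    refine le_of_mul_le_mul_right ?_ h5
    calc ‖a i‖ * ρ ^ (i : ℕ) * R * R ^ ((i : ℕ) ^ 2)
        = ‖a i‖ * R ^ ((i : ℕ) ^ 2) * R ^ (2 * (s : ℕ) * i + 1) := by
          rw [hρ, ← pow_mul, pow_succ]
          ring
      _ ≤ ‖a s‖ * R ^ ((s : ℕ) ^ 2) * R ^ (2 * (s : ℕ) * i + 1) :=
          mul_le_mul_of_nonneg_right h1 (by positivity)
      _ = ‖a s‖ * R ^ ((s : ℕ) ^ 2 + 2 * s * i + 1) := by
          rw [mul_assoc, ← pow_add, ← add_assoc]
      _ ≤ ‖a s‖ * R ^ ((i : ℕ) ^ 2 + 2 * s * s) :=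
          mul_le_mul_of_nonneg_left (pow_le_pow_right₀ hR1 h2) (norm_nonneg _)
      _ = ‖a s‖ * ρ ^ (s : ℕ) * R ^ ((i : ℕ) ^ 2) := by
          rw [hρ, ← pow_mul, pow_add]
          ring
  -- the equation at the maximum
  have heq : lfT k L s a z m₀ = ∑ i : Fin (k + 1), a i * lfx L s z (m₀ + i) := rfl
  have h1 : a s * z m₀ = lfT k L s a z m₀ -
      ∑ i ∈ Finset.univ.erase s, a i * lfx L s z (m₀ + i) := by
    rw [heq, ← Finset.add_sum_erase _ _ (Finset.mem_univ s), add_sub_cancel_right, add_comm (m₀ : ℕ) s,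
      lfx_at]
  have h2 : ∀ i ∈ Finset.univ.erase s, ‖a i * lfx L s z (m₀ + i)‖ ≤ ‖a s‖ * W * ρ ^ (m₀ : ℕ) / R := by
    intro i hi
    have his := (Finset.mem_erase.1 hi).1
    rw [norm_mul, le_div_iff₀ hR0]
    have h3 := hx (m₀ + i)
    have h4 := ha i his
    have h5 : 0 < ρ ^ (s : ℕ) := by positivity
    refine le_of_mul_le_mul_right ?_ h5
    calc ‖a i‖ * ‖lfx L s z (m₀ + i)‖ * R * ρ ^ (s : ℕ)
        = ‖a i‖ * R * (‖lfx L s z (m₀ + i)‖ * ρ ^ (s : ℕ)) := by ring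
      _ ≤ ‖a i‖ * R * (W * ρ ^ ((m₀ : ℕ) + i)) := mul_le_mul_of_nonneg_left h3 (by positivity)
      _ = (‖a i‖ * ρ ^ (i : ℕ) * R) * (W * ρ ^ (m₀ : ℕ)) := by
          rw [pow_add]
          ring
      _ ≤ (‖a s‖ * ρ ^ (s : ℕ)) * (W * ρ ^ (m₀ : ℕ)) := mul_le_mul_of_nonneg_right h4 (by positivity)
      _ = ‖a s‖ * W * ρ ^ (m₀ : ℕ) * ρ ^ (s : ℕ) := by ring
  have h3 : ‖∑ i ∈ Finset.univ.erase s, a i * lfx L s z (m₀ + i)‖ ≤ ‖a s‖ * W * ρ ^ (m₀ : ℕ) / 2 := by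
    refine (norm_sum_le _ _).trans ((Finset.sum_le_sum h2).trans ?_)
    rw [Finset.sum_const, Finset.card_erase_of_mem (Finset.mem_univ s), Finset.card_univ, Fintype.card_fin,
      Nat.add_sub_cancel, nsmul_eq_mul]
    have h4 : (k : ℝ) * (‖a s‖ * W * ρ ^ (m₀ : ℕ) / R) = (k / R) * (‖a s‖ * W * ρ ^ (m₀ : ℕ)) := by ring
    have h5 : (k : ℝ) / R ≤ 1 / 2 := by
      rw [div_le_iff₀ hR0, hR]
      linarith
    rw [h4]
    have h6 : 0 ≤ ‖a s‖ * W * ρ ^ (m₀ : ℕ) := by positivity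
    calc (k : ℝ) / R * (‖a s‖ * W * ρ ^ (m₀ : ℕ)) ≤ 1 / 2 * (‖a s‖ * W * ρ ^ (m₀ : ℕ)) :=
          mul_le_mul_of_nonneg_right h5 h6
      _ = ‖a s‖ * W * ρ ^ (m₀ : ℕ) / 2 := by ring
  have h4 : ‖a s‖ * (W * ρ ^ (m₀ : ℕ)) = ‖a s * z m₀‖ := by
    rw [norm_mul, hW, div_mul_cancel₀ _ (by positivity : ρ ^ (m₀ : ℕ) ≠ 0)]
  have h5 : ‖a s‖ * W * ρ ^ (m₀ : ℕ) ≤ 2 * η := by
    have h6 := norm_sub_le (lfT k L s a z m₀) (∑ i ∈ Finset.univ.erase s, a i * lfx L s z (m₀ + i))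
    rw [← h1, ← h4] at h6
    have h7 := hη m₀
    have h8 : ‖a s‖ * (W * ρ ^ (m₀ : ℕ)) = ‖a s‖ * W * ρ ^ (m₀ : ℕ) := by ring
    rw [h8] at h6
    linarith
  have h6 : ‖a s‖ * W ≤ 2 * η := by
    refine le_trans ?_ h5
    exact le_mul_of_one_le_right (by positivity) (one_le_pow₀ hρ1)
  have h7 : ρ ^ (m : ℕ) ≤ ρ ^ L := pow_le_pow_right₀ hρ1 (Nat.lt_succ_iff.1 m.2)
  have h8 : (0 : ℝ) ≤ 2 * η := le_trans (by positivity) h6
  calc ‖z m‖ * ‖a s‖ ≤ W * ρ ^ (m : ℕ) * ‖a s‖ := mul_le_mul_of_nonneg_right (hz m) (norm_nonneg _)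
    _ = ‖a s‖ * W * ρ ^ (m : ℕ) := by ring
    _ ≤ 2 * η * ρ ^ L := mul_le_mul h6 h7 (by positivity) h8
    _ = 2 * η * R ^ (2 * (s : ℕ) * L) := by rw [hρ, ← pow_mul]

/-- the perturbation -/
theorem toep (k L : ℕ) : ∃ B : ℝ, 0 < B ∧ ∀ a : Fin (k + 1) → ℂ, (∃ i, 1 ≤ ‖a i‖) → ∀ (η : ℝ) (e : ℕ → ℂ),
    0 ≤ η → (∀ m, m ≤ L → ‖e m‖ ≤ η) → ∃ x : ℕ → ℂ, (∀ m, m ≤ L → ∑ i : Fin (k + 1), a i * x (m + i) = e m) ∧
      ∀ m, ‖x m‖ ≤ B * η := by
  obtain ⟨R, hR⟩ : ∃ R : ℝ, R = 2 * ((k : ℝ) + 1) := ⟨_, rfl⟩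
  have hR1 : 1 ≤ R := by
    rw [hR]
    have : (0 : ℝ) ≤ k := Nat.cast_nonneg k
    linarith
  have hR0 : 0 < R := by linarith
  refine ⟨2 * R ^ (2 * k * L) * R ^ (k ^ 2), by positivity, fun a ha η e hη he => ?_⟩
  obtain ⟨s, -, hs⟩ := Finset.exists_max_image (Finset.univ : Finset (Fin (k + 1)))
    (fun i => ‖a i‖ * R ^ ((i : ℕ) ^ 2)) ⟨0, Finset.mem_univ _⟩
  have hs' : ∀ i, ‖a i‖ * R ^ ((i : ℕ) ^ 2) ≤ ‖a s‖ * R ^ ((s : ℕ) ^ 2) := fun i => hs i (Finset.mem_univ _)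
  have hsk : (s : ℕ) ≤ k := Nat.lt_succ_iff.1 s.2
  have hsa : 1 ≤ ‖a s‖ * R ^ (k ^ 2) := by
    obtain ⟨i, hi⟩ := ha
    have h1 : 1 ≤ ‖a i‖ * R ^ ((i : ℕ) ^ 2) := one_le_mul_of_one_le_of_one_le hi (one_le_pow₀ hR1)
    refine h1.trans ((hs' i).trans ?_)
    exact mul_le_mul_of_nonneg_left (pow_le_pow_right₀ hR1 (Nat.pow_le_pow_left hsk 2)) (norm_nonneg _)
  have hs0 : 0 < ‖a s‖ := by
    by_contra h
    have h1 : ‖a s‖ = 0 := le_antisymm (not_lt.1 h) (norm_nonneg _)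
    rw [h1, zero_mul] at hsa
    linarith
  have hinj : Function.Injective (lfT k L s a) := by
    rw [injective_iff_map_eq_zero]
    intro z hz
    funext m
    have h1 := lf_bound k L R hR a s hs0 hs' z 0 (fun m => by rw [hz, Pi.zero_apply, norm_zero]) m
    rw [mul_zero, zero_mul] at h1
    have h2 : ‖z m‖ = 0 := by
      by_contra h3
      have h4 : 0 < ‖z m‖ := lt_of_le_of_ne (norm_nonneg _) (Ne.symm h3)
      have h5 := mul_pos h4 hs0
      linarith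
    rw [Pi.zero_apply]
    exact norm_eq_zero.1 h2
  obtain ⟨z, hz⟩ := (LinearMap.injective_iff_surjective.1 hinj) (fun m => e m)
  have hzb := lf_bound k L R hR a s hs0 hs' z η (fun m => by
    rw [hz]
    exact he m (Nat.lt_succ_iff.1 m.2))
  refine ⟨lfx L s z, fun m hm => ?_, fun m => ?_⟩
  · have h1 := congrFun hz ⟨m, Nat.lt_succ_of_le hm⟩
    exact h1
  · have hB : 0 ≤ 2 * R ^ (2 * k * L) * R ^ (k ^ 2) * η := by positivity
    unfold lfx
    by_cases h : (s : ℕ) ≤ m ∧ m < s + (L + 1)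
    · rw [dif_pos h]
      have h1 := hzb ⟨m - s, by omega⟩
      have h2 : R ^ (2 * (s : ℕ) * L) ≤ R ^ (2 * k * L) :=
        pow_le_pow_right₀ hR1 (Nat.mul_le_mul_right _ (Nat.mul_le_mul_left _ hsk))
      calc ‖z ⟨m - s, by omega⟩‖ ≤ ‖z ⟨m - s, by omega⟩‖ * (‖a s‖ * R ^ (k ^ 2)) :=
            le_mul_of_one_le_right (norm_nonneg _) hsa
        _ = (‖z ⟨m - s, by omega⟩‖ * ‖a s‖) * R ^ (k ^ 2) := by ring
        _ ≤ (2 * η * R ^ (2 * (s : ℕ) * L)) * R ^ (k ^ 2) := mul_le_mul_of_nonneg_right h1 (by positivity)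
        _ ≤ (2 * η * R ^ (2 * k * L)) * R ^ (k ^ 2) :=
            mul_le_mul_of_nonneg_right (mul_le_mul_of_nonneg_left h2 (by positivity)) (by positivity)
        _ = 2 * R ^ (2 * k * L) * R ^ (k ^ 2) * η := by ring
    · rw [dif_neg h, norm_zero]
      exact hB

/-- one step of the recurrence -/
private noncomputable def lfS (k : ℕ) (a : Fin (k + 1) → ℂ) (b : ℂ) :
    (Fin (k + 2) → ℂ) →ₗ[ℂ] (Fin (k + 2) → ℂ) :=
  LinearMap.pi fun i =>
    if h : (i : ℕ) < k then LinearMap.proj ⟨i + 1, by omega⟩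
    else if (i : ℕ) = k then
      (a (Fin.last k))⁻¹ • (b • LinearMap.proj (Fin.last (k + 1)) -
        ∑ i : Fin k, a i.castSucc • LinearMap.proj i.succ.castSucc)
    else LinearMap.proj (Fin.last (k + 1))

private noncomputable def lfy (k : ℕ) (g : ℕ → ℂ) (n : ℕ) : Fin (k + 2) → ℂ :=
  fun i => if (i : ℕ) ≤ k then g (n + i) else 1

private theorem lf_step (k : ℕ) (a : Fin (k + 1) → ℂ) (b : ℂ) (ha : a (Fin.last k) ≠ 0) (g : ℕ → ℂ) (n : ℕ)
    (h : ∑ i : Fin (k + 1), a i * g (n + 1 + i) = b) :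
    lfS k a b (lfy k g n) = lfy k g (n + 1) := by
  funext i
  rw [lfS, LinearMap.pi_apply]
  by_cases hi : (i : ℕ) < k
  · rw [dif_pos hi, LinearMap.proj_apply, lfy, lfy, if_pos (by simpa using hi),
      if_pos hi.le]
    congr 1
    simp only
    omega
  · rw [dif_neg hi]
    by_cases hk : (i : ℕ) = k
    · rw [if_pos hk]
      rw [Fin.sum_univ_castSucc] at h
      simp only [LinearMap.smul_apply, LinearMap.sub_apply, LinearMap.sum_apply, LinearMap.proj_apply,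
        smul_eq_mul]
      have h1 : lfy k g n (Fin.last (k + 1)) = 1 := by
        rw [lfy, if_neg (by rw [Fin.val_last]; omega)]
      have h2 : ∀ i : Fin k, lfy k g n i.succ.castSucc = g (n + 1 + (i : ℕ)) := by
        intro i
        rw [lfy, if_pos (by rw [Fin.val_castSucc, Fin.val_succ]; omega)]
        congr 1
        rw [Fin.val_castSucc, Fin.val_succ]
        omega
      have h3 : lfy k g (n + 1) i = g (n + 1 + k) := by
        rw [lfy, if_pos hk.le, hk]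
      rw [h1, h3, mul_one]
      simp only [h2]
      rw [← h]
      simp only [Fin.val_castSucc, Fin.val_last]
      field_simp
      ring
    · rw [if_neg hk, LinearMap.proj_apply, lfy, lfy, if_neg (by rw [Fin.val_last]; omega),
        if_neg (by omega)]

private theorem lf_orbit (k : ℕ) (a : Fin (k + 1) → ℂ) (b : ℂ) (ha : a (Fin.last k) ≠ 0) (g : ℕ → ℂ)
    (L : ℕ) (h : ∀ j, 1 ≤ j → j ≤ L → ∑ i : Fin (k + 1), a i * g (j + i) = b) (j : ℕ) (hj : j ≤ L) :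
    (LinearMap.toMatrix' (lfS k a b) ^ j) *ᵥ lfy k g 0 = lfy k g j := by
  induction j with
  | zero => rw [pow_zero, one_mulVec]
  | succ j ih =>
    rw [pow_succ', ← mulVec_mulVec, ih (by omega), LinearMap.toMatrix'_mulVec,
      lf_step k a b ha g j (h (j + 1) (by omega) hj)]

open Classical in
/-- the case of a nonzero last coefficient -/
private theorem lf_last (k : ℕ) :
    ∃ c δ : ℝ, 0 < c ∧ 0 < δ ∧ ∃ N₀ : ℕ, ∀ N : ℕ, N₀ ≤ N → ∀ (a : Fin (k + 1) → ℂ) (b : ℂ),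
      (∃ i, 1 ≤ ‖a i‖) → a (Fin.last k) ≠ 0 →
      c * N ≤ (((Finset.Icc 1 N).filter fun n : ℕ => δ / Real.log N ≤
        ‖∑ i : Fin (k + 1), a i * ((ordinate (n + i) : ℝ) : ℂ) - b‖).card : ℝ) := by
  obtain ⟨M, L, N₁, hW⟩ := wind_W elimSt (hyp_near 1) (k + 2) 0 0 1 1 (1 / 2) 1 (by norm_num) zero_le_one
  obtain ⟨B, hB, htoep⟩ := toep k L
  obtain ⟨L', hL'⟩ : ∃ L', L' = L + 1 := ⟨_, rfl⟩
  refine ⟨1 / (4 * L'), 1 / B, by rw [hL']; positivity, by positivity, max N₁ (4 * L'), fun N hN a b ha1 ha => ?_⟩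
  have hN1 : N₁ ≤ N := le_trans (le_max_left _ _) hN
  have hN2 : 4 * L' ≤ N := le_trans (le_max_right _ _) hN
  have hN4 : (4 : ℝ) ≤ N := by
    have h1 : 4 ≤ N := by omega
    exact_mod_cast h1
  have hlog : 0 < Real.log N := Real.log_pos (by linarith)
  obtain ⟨η, hη⟩ : ∃ η, η = 1 / B / Real.log N := ⟨_, rfl⟩
  have hη0 : 0 ≤ η := by rw [hη]; positivity
  obtain ⟨Fail, hFail⟩ : ∃ Fail, Fail = (Finset.Icc 1 N).filter fun n : ℕ =>
    η ≤ ‖∑ i : Fin (k + 1), a i * ((ordinate (n + i) : ℝ) : ℂ) - b‖ := ⟨_, rfl⟩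
  have key := hW N hN1 (fun j _ => j) ⟨0, rfl⟩ (fun _ j _ => Nat.lt_succ_self j)
    (fun i i' hii => absurd (Fin.ext (by omega)) hii) (fun _ => by
      rw [one_mul]
      exact_mod_cast (by omega : L ≤ N))
    (fun _ => {X (Sum.inr 0) - X (Sum.inl (Sum.inl 0))}) (fun j => ⟨by rw [Finset.card_singleton], by
      intro q hq
      rw [Finset.mem_singleton] at hq
      rw [hq]
      refine (totalDegree_sub _ _).trans ?_
      rw [totalDegree_X, totalDegree_X, max_self]⟩)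
  obtain ⟨Pr, hPr⟩ : ∃ Pr : ℕ → Prop, ∀ n, Pr n ↔ ∀ j, 1 ≤ j → j ≤ L →
    ‖∑ i : Fin (k + 1), a i * ((ordinate (n + j + i) : ℝ) : ℂ) - b‖ < η := ⟨_, fun _ => Iff.rfl⟩
  obtain ⟨S, hS⟩ : ∃ S, S = (Finset.Icc 1 N).filter fun n : ℕ => Pr n := ⟨_, rfl⟩
  have hScard : (S.card : ℝ) ≤ 1 / 2 * N := by
    refine le_trans (Nat.cast_le.mpr (Finset.card_le_card fun n hn => ?_)) key
    rw [hS, Finset.mem_filter, hPr] at hn
    rw [Finset.mem_filter]
    obtain ⟨x, hx1, hx2⟩ := htoep a ha1 η (fun j => if 1 ≤ j ∧ j ≤ L then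
      ∑ i : Fin (k + 1), a i * ((ordinate (n + j + i) : ℝ) : ℂ) - b else 0) hη0 (fun j hj => by
        by_cases h : 1 ≤ j
        · rw [if_pos ⟨h, hj⟩]
          exact (hn.2 j h hj).le
        · rw [if_neg fun h' => h h'.1, norm_zero]
          exact hη0)
    obtain ⟨y, hy⟩ : ∃ y : ℕ → ℂ, ∀ j, y j = ((ordinate (n + j) : ℝ) : ℂ) - x j := ⟨_, fun _ => rfl⟩
    have hrel : ∀ j, 1 ≤ j → j ≤ L → ∑ i : Fin (k + 1), a i * y (j + i) = b := by
      intro j h1 hj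
      have h2 := hx1 j hj
      rw [if_pos ⟨h1, hj⟩] at h2
      have h3 : ∑ i : Fin (k + 1), a i * y (j + i) =
          ∑ i : Fin (k + 1), a i * ((ordinate (n + j + i) : ℝ) : ℂ) - ∑ i : Fin (k + 1), a i * x (j + i) := by
        rw [← Finset.sum_sub_distrib]
        refine Finset.sum_congr rfl fun i _ => ?_
        rw [hy, ← add_assoc]
        ring
      rw [h3, h2, sub_sub_cancel]
    refine ⟨hn.1, LinearMap.toMatrix' (lfS k a b), lfy k y 0, fun i => i.elim0,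
      fun j _ => y j, fun j _ _ => ?_, fun j hj => ⟨_, Finset.mem_singleton_self _, ?_, ?_⟩⟩
    · show ‖y j - ((ordinate (n + j) : ℝ) : ℂ)‖ ≤ 1 / Real.log N
      rw [hy, sub_sub_cancel_left, norm_neg]
      refine (hx2 j).trans (le_of_eq ?_)
      rw [hη]
      field_simp
    · refine ⟨fun _ => lfy k y j 0 + 1, ?_⟩
      rw [lf_orbit k a b ha y L hrel j hj]
      simp only [map_sub, eval_X, Sum.elim_inr, Sum.elim_inl]
      rw [add_sub_cancel_left]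
      exact one_ne_zero
    · rw [lf_orbit k a b ha y L hrel j hj]
      simp only [map_sub, eval_X, Sum.elim_inr, Sum.elim_inl]
      rw [lfy, if_pos (by simp)]
      simp
  have hcover : Finset.Icc 1 N ⊆ S ∪ ((Fail.biUnion fun m => Finset.Ico (m - L) m) ∪
      Finset.Ioc (N - L) N) := by
    intro n hn
    by_cases h1 : n ∈ S
    · exact Finset.mem_union_left _ h1
    · refine Finset.mem_union_right _ ?_
      by_cases h2 : N - L < n
      · exact Finset.mem_union_right _ (Finset.mem_Ioc.mpr ⟨h2, (Finset.mem_Icc.mp hn).2⟩)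
      · refine Finset.mem_union_left _ ?_
        rw [hS, Finset.mem_filter, hPr] at h1
        have h3 : ∃ j, 1 ≤ j ∧ j ≤ L ∧ η ≤ ‖∑ i : Fin (k + 1), a i * ((ordinate (n + j + i) : ℝ) : ℂ) - b‖ := by
          by_contra hc
          push Not at hc
          exact h1 ⟨hn, hc⟩
        obtain ⟨j, hj1, hjL, hj⟩ := h3
        have hn1 := Finset.mem_Icc.mp hn
        rw [Finset.mem_biUnion]
        refine ⟨n + j, ?_, Finset.mem_Ico.mpr ⟨by omega, by omega⟩⟩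
        rw [hFail, Finset.mem_filter]
        exact ⟨Finset.mem_Icc.mpr ⟨by omega, by omega⟩, hj⟩
  have hcard : N ≤ S.card + (Fail.card * L + L) := by
    have h1 := Finset.card_le_card hcover
    rw [Nat.card_Icc, Nat.add_sub_cancel] at h1
    refine h1.trans ((Finset.card_union_le _ _).trans (Nat.add_le_add_left ?_ _))
    refine (Finset.card_union_le _ _).trans (Nat.add_le_add ?_ ?_)
    · refine Finset.card_biUnion_le_card_mul _ _ _ fun m _ => ?_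
      rw [Nat.card_Ico]
      omega
    · rw [Nat.card_Ioc]
      omega
  have hcard' : (N : ℝ) ≤ 1 / 2 * N + (Fail.card * L + L) := by
    have h1 : (N : ℝ) ≤ S.card + (Fail.card * L + L) := by exact_mod_cast hcard
    linarith
  rw [← hη, ← hFail]
  have hL0 : (0 : ℝ) < L' := by rw [hL']; positivity
  have hLL : (L : ℝ) ≤ L' := by rw [hL']; push_cast; linarith
  have hN2' : 4 * (L' : ℝ) ≤ N := by exact_mod_cast hN2
  rw [div_mul_eq_mul_div, one_mul, div_le_iff₀ (by positivity)]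
  have h5 : (Fail.card : ℝ) * L + L ≤ Fail.card * L' + L' :=
    add_le_add (mul_le_mul_of_nonneg_left hLL (Nat.cast_nonneg _)) hLL
  nlinarith [h5, hcard', hN2']

open Classical in
/-- For every `k` there are `c, δ > 0` such that for all large `N` and all complex `a₀, …, a_k`, `b` with `max |a_i| ≥ 1` (they may
depend on `N`) one has `|a₀ γ_n + ⋯ + a_k γ_(n + k) - b| ≥ δ / log N` for at least `c N` of the `n` in `[1, N]`. -/
theorem linear_forms (k : ℕ) : ∃ c δ : ℝ, 0 < c ∧ 0 < δ ∧ ∃ N₀ : ℕ, ∀ N : ℕ, N₀ ≤ N →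
    ∀ (a : Fin (k + 1) → ℂ) (b : ℂ), (∃ i, 1 ≤ ‖a i‖) →
      c * N ≤ (((Finset.Icc 1 N).filter fun n : ℕ => δ / Real.log N ≤
        ‖∑ i : Fin (k + 1), a i * ((ordinate (n + i) : ℝ) : ℂ) - b‖).card : ℝ) := by
  induction k with
  | zero =>
    obtain ⟨c, δ, hc, hδ, N₀, h⟩ := lf_last 0
    refine ⟨c, δ, hc, hδ, N₀, fun N hN a b ha => h N hN a b ha ?_⟩
    obtain ⟨i, hi⟩ := ha
    intro h0
    rw [show i = Fin.last 0 from Fin.ext (by omega), h0, norm_zero] at hi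
    linarith
  | succ k ih =>
    obtain ⟨c, δ, hc, hδ, N₀, h⟩ := lf_last (k + 1)
    obtain ⟨c', δ', hc', hδ', N₀', h'⟩ := ih
    refine ⟨min c c', min δ δ', lt_min hc hc', lt_min hδ hδ', max 2 (max N₀ N₀'), fun N hN a b ha => ?_⟩
    have hN0 : (0 : ℝ) ≤ N := Nat.cast_nonneg N
    have hN2 : 2 ≤ N := (le_max_left _ _).trans hN
    have hN3 : N₀ ≤ N := (le_max_left _ _).trans ((le_max_right _ _).trans hN)
    have hN4 : N₀' ≤ N := (le_max_right _ _).trans ((le_max_right _ _).trans hN)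
    have hlog : 0 < Real.log N := Real.log_pos (by exact_mod_cast hN2)
    by_cases h0 : a (Fin.last (k + 1)) = 0
    · refine (mul_le_mul_of_nonneg_right (min_le_right c c') hN0).trans ?_
      have h1 : ∃ i : Fin (k + 1), 1 ≤ ‖a i.castSucc‖ := by
        obtain ⟨i, hi⟩ := ha
        induction i using Fin.lastCases with
        | last =>
          rw [h0, norm_zero] at hi
          linarith
        | cast i => exact ⟨i, hi⟩
      have h3 := h' N hN4 (fun i => a i.castSucc) b h1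
      refine h3.trans (Nat.cast_le.2 (Finset.card_le_card fun n hn => ?_))
      rw [Finset.mem_filter] at hn ⊢
      refine ⟨hn.1, (div_le_div_of_nonneg_right (min_le_right δ δ') hlog.le).trans ?_⟩
      rw [Fin.sum_univ_castSucc, h0, zero_mul, add_zero]
      exact hn.2
    · refine (mul_le_mul_of_nonneg_right (min_le_left c c') hN0).trans ((h N hN3 a b ha h0).trans ?_)
      refine Nat.cast_le.2 (Finset.card_le_card fun n hn => ?_)
      rw [Finset.mem_filter] at hn ⊢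
      exact ⟨hn.1, (div_le_div_of_nonneg_right (min_le_left δ δ') hlog.le).trans hn.2⟩

end Pool.Agent.Lib.MP_ec260d_ntR
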