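import Mathlib
import Pool.Agent.Lib.MP_ec260d_ntW.WB2
import Pool.Agent.Lib.MP_ec260d_ntR.TMain

/-!
# The theorem on windows, for the ordinates
-/

namespace Pool.Agent.Lib.MP_ec260d_ntR

open MvPolynomial Matrix
open Pool.Agent.Lib.MP_ec260d_ntW
open Pool.Agent.Lib.MP_ec260d_nt (ordinate)

open Classical in
theorem thmW (r d k D H : ℕ) (ε C K : ℝ) (hε : 0 < ε) : ∃ L M N₀ : ℕ, ∀ N : ℕ, N₀ ≤ N →
    ∀ t : ℕ → Fin (k + 1) → ℕ, (∀ j < L, ∀ i, t j i < t (j + 1) i) → (∀ i, (t L i : ℝ) ≤ C * N) →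
      (∀ j ≤ L, ∀ j' ≤ L, ∀ i i', i ≠ i' → (M : ℝ) ≤ |(t j i : ℝ) - t j' i'|) →
      ∀ Q : ℕ → Finset (MvPolynomial ((Fin r ⊕ Fin d) ⊕ Fin (k + 1)) ℂ),
        (∀ j ≤ L, (Q j).card ≤ H ∧ ∀ q ∈ Q j, q.totalDegree ≤ D) →
        (((Finset.Icc 1 N).filter (fun n : ℕ => ∃ (A : Matrix (Fin r) (Fin r) ℂ) (y : Fin r → ℂ)
          (w : Fin d → ℂ) (x : ℕ → Fin (k + 1) → ℂ),
          (∀ j ≤ L, ∀ i, ‖x j i - ((ordinate (n + t j i) : ℝ) : ℂ)‖ ≤ K / Real.log N) ∧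
          ∀ j ≤ L, ∃ q ∈ Q j,
            (∃ z : Fin (k + 1) → ℂ, eval (Sum.elim (Sum.elim (A ^ j *ᵥ y) w) z) q ≠ 0) ∧
              eval (Sum.elim (Sum.elim (A ^ j *ᵥ y) w) (x j)) q = 0)).card : ℝ) ≤ ε * N := by
  have hC0 : 0 ≤ max C 0 := le_max_right _ _
  obtain ⟨M, L, N₁, h⟩ := wind_W elimSt (hyp_near (2 * |K|)) r d k D H (ε / (1 + max C 0)) (max C 0)
    (by positivity) hC0
  obtain ⟨N₂, hN₂⟩ := exists_nat_ge (1 + max C 0)
  refine ⟨L, M, max N₁ (max N₂ 2), fun N hN t hinc htC hsep Q hQ => ?_⟩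
  have hN1 : N₁ ≤ N := (le_max_left _ _).trans hN
  have hN2 : (N₂ : ℝ) ≤ N := by
    exact_mod_cast (le_max_left _ _).trans ((le_max_right _ _).trans hN)
  have hN3 : 2 ≤ N := (le_max_right _ _).trans ((le_max_right _ _).trans hN)
  have hNR : (0 : ℝ) ≤ N := Nat.cast_nonneg _
  -- monotonicity
  have hmon : ∀ i, ∀ a b, a ≤ b → b ≤ L → t a i ≤ t b i := by
    intro i a b hab
    induction b, hab using Nat.le_induction with
    | base => intro _; exact le_rfl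
    | succ b hab ih =>
      intro hb
      exact (ih (by omega)).trans (hinc b (by omega) i).le
  have htC' : ∀ j ≤ L, ∀ i, (t j i : ℝ) ≤ max C 0 * N := by
    intro j hj i
    have h1 : (t j i : ℝ) ≤ t L i := by exact_mod_cast hmon i j L hj le_rfl
    exact h1.trans ((htC i).trans (mul_le_mul_of_nonneg_right (le_max_left _ _) hNR))
  -- the least shift
  obtain ⟨i₀, -, hmin⟩ := Finset.exists_min_image (Finset.univ : Finset (Fin (k + 1)))
    (fun i => t 0 i) ⟨0, Finset.mem_univ _⟩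
  have hmin' : ∀ j ≤ L, ∀ i, t 0 i₀ ≤ t j i := fun j hj i =>
    (hmin i (Finset.mem_univ _)).trans (hmon i 0 j (Nat.zero_le _) hj)
  refine count_shift hε hC0 (htC' 0 (Nat.zero_le _) i₀) _
    (fun n : ℕ => ∃ (A : Matrix (Fin r) (Fin r) ℂ) (y : Fin r → ℂ)
          (w : Fin d → ℂ) (x : ℕ → Fin (k + 1) → ℂ),
          (∀ j, j ≤ L → ∀ i, x j i ∈ near (2 * |K|) (N + t 0 i₀) (n + (t j i - t 0 i₀))) ∧
            ∀ j, j ≤ L → ∃ q ∈ (if j ≤ L then Q j else ∅),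
              (∃ z : Fin (k + 1) → ℂ, eval (Sum.elim (Sum.elim (A ^ j *ᵥ y) w) z) q ≠ 0) ∧
                eval (Sum.elim (Sum.elim (A ^ j *ᵥ y) w) (x j)) q = 0) ?_
    (h (N + t 0 i₀) (hN1.trans (Nat.le_add_right _ _)) (fun j i => t j i - t 0 i₀) ?_ ?_ ?_ ?_
      (fun j => if j ≤ L then Q j else ∅) ?_)
  · rintro n ⟨A, y, w, x, hx, hq⟩
    refine ⟨A, y, w, x, fun j hj i => ?_, fun j hj => ?_⟩
    · have e : n + t 0 i₀ + (t j i - t 0 i₀) = n + t j i := by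
        have := hmin' j hj i
        omega
      rw [e]
      exact near_mono (hN₂.trans hN2) hN3 (htC' 0 (Nat.zero_le _) i₀) (hx j hj i)
    · rw [if_pos hj]
      exact hq j hj
  · exact ⟨i₀, Nat.sub_self _⟩
  · intro i j hj
    have h1 := hinc j hj i
    have h2 := hmin' j hj.le i
    show t j i - t 0 i₀ < t (j + 1) i - t 0 i₀
    omega
  · intro i i' hne j j' hj hj'
    have h1 := hsep j hj j' hj' i i' hne
    have h2 := hmin' j hj i
    have h3 := hmin' j' hj' i'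
    rcases le_abs.1 h1 with h4 | h4
    · right
      have h5 : ((t j' i' + M : ℕ) : ℝ) ≤ t j i := by
        push_cast
        linarith
      have h6 : t j' i' + M ≤ t j i := by exact_mod_cast h5
      show t j' i' - t 0 i₀ + M ≤ t j i - t 0 i₀
      omega
    · left
      have h5 : ((t j i + M : ℕ) : ℝ) ≤ t j' i' := by
        push_cast
        linarith
      have h6 : t j i + M ≤ t j' i' := by exact_mod_cast h5
      show t j i - t 0 i₀ + M ≤ t j' i' - t 0 i₀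
      omega
  · intro i
    have h1 : ((t L i - t 0 i₀ : ℕ) : ℝ) ≤ t L i := by exact_mod_cast Nat.sub_le _ _
    have h2 : max C 0 * (N : ℝ) ≤ max C 0 * ((N + t 0 i₀ : ℕ) : ℝ) := by
      refine mul_le_mul_of_nonneg_left ?_ hC0
      exact_mod_cast Nat.le_add_right _ _
    exact h1.trans ((htC' L le_rfl i).trans h2)
  · intro j
    by_cases hj : j ≤ L
    · rw [if_pos hj]
      exact hQ j hj
    · rw [if_neg hj]
      exact ⟨by simp, fun q hq => absurd hq (Finset.notMem_empty _)⟩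

end Pool.Agent.Lib.MP_ec260d_ntR
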